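import Mathlib

/-!
# The algebras of the variety: commutation of all translates of the band operation
-/

universe u

namespace Pinus

/-- Rectangular band identities for a binary operation. -/
structure RB {A : Type u} (p : A → A → A) : Prop where
  idem : ∀ x, p x x = x
  l : ∀ x y z, p (p x y) z = p x z
  r : ∀ x y z, p x (p y z) = p x z

/-- Commutation of binary operations. -/
def Cm {A : Type u} (p q : A → A → A) : Prop :=
  ∀ x y z w, p (q x y) (q z w) = q (p x z) (p y w)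

section
variable {A : Type u} {p q d e : A → A → A}

theorem Cm.symm (h : Cm p q) : Cm q p := fun x y z w => (h x z y w).symm

theorem RB.self (h : RB p) : Cm p p := by
  intro x y z w
  rw [h.l, h.r, h.l, h.r]

/-- The exclusive or of two operations. -/
def xorOp (d e : A → A → A) : A → A → A := fun x y => d (e y x) (e x y)

theorem Cm.xor (h : Cm q d) (h' : Cm q e) : Cm q (xorOp d e) := by
  intro x y z w
  unfold xorOp
  rw [h, h', h']

theorem xor_cancel (he : RB e) (d : A → A → A) : xorOp (xorOp d e) e = d := by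
  funext x y
  unfold xorOp
  rw [he.l, he.r, he.idem, he.l, he.r, he.idem]

theorem xor_cancel' (hd : RB d) (g : A → A → A) : xorOp d (xorOp d g) = g := by
  funext x y
  unfold xorOp
  rw [hd.l, hd.r, hd.idem]

/-- The meet of two operations. -/
def meetOp (d e : A → A → A) : A → A → A := fun x y => d (e x y) y

theorem RB.meet (hd : RB d) (he : RB e) (h : Cm d e) : RB (meetOp d e) := by
  refine ⟨fun x => ?_, fun x y z => ?_, fun x y z => ?_⟩
  · unfold meetOp; rw [he.idem, hd.idem]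
  · unfold meetOp
    have h1 : e (d (e x y) y) z = d (e x z) (e y z) := by
      conv_lhs => rw [← hd.idem z]
      rw [h.symm, he.l]
    rw [h1, hd.l]
  · unfold meetOp
    have h1 : e x (d (e y z) z) = e x z := by
      conv_lhs => rw [← hd.idem x]
      rw [h.symm, he.r, hd.idem]
    rw [h1, hd.r]

theorem Cm.meet (h : Cm q d) (h' : Cm q e) : Cm q (meetOp d e) := by
  intro x y z w
  unfold meetOp
  rw [h, h']

theorem meet_comm (he : RB e) (hd : RB d) (h : Cm d e) : meetOp d e = meetOp e d := by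
  funext x y
  unfold meetOp
  conv_lhs => rw [← he.idem y]
  rw [he.r, h, hd.idem]

end

/-- Algebras of the variety. -/
structure IsAlg {A : Type u} (f : A → A → A) (s s' t t' : A → A) : Prop where
  ss' : ∀ x, s (s' x) = x
  s's : ∀ x, s' (s x) = x
  tt' : ∀ x, t (t' x) = x
  t't : ∀ x, t' (t x) = x
  st : ∀ x, s (t x) = t (s x)
  band : RB f
  comm : ∀ x y z w, f (s (f (s' x) (s' y))) (s (f (s' z) (s' w))) =
    s (f (s' (f x z)) (s' (f y w)))
  led : ∀ x y, t (f (t' x) (t' y)) = f (s (f (s' y) (s' x))) (s (f (s' x) (s' y)))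

namespace IsAlg

variable {A : Type u} {f : A → A → A} {s s' t t' : A → A} (h : IsAlg f s s' t t')

include h

/-- The permutation `s`. -/
def S : Equiv.Perm A := ⟨s, s', h.s's, h.ss'⟩

/-- The permutation `t`. -/
def T : Equiv.Perm A := ⟨t, t', h.t't, h.tt'⟩

theorem commST : Commute h.S h.T := Equiv.ext fun x => h.st x

/-- The action of `ℤ × ℤ`. -/
def act (g : ℤ × ℤ) : Equiv.Perm A := h.S ^ g.1 * h.T ^ g.2

theorem act_add (g k : ℤ × ℤ) (x : A) : h.act (g + k) x = h.act g (h.act k x) := by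
  have : h.act (g + k) = h.act g * h.act k := by
    unfold act
    rw [Prod.fst_add, Prod.snd_add, zpow_add, zpow_add]
    have := (h.commST.zpow_zpow k.1 g.2).eq
    rw [mul_assoc, mul_assoc, ← mul_assoc (h.S ^ k.1), this, mul_assoc]
  rw [this]
  rfl

theorem act_zero (x : A) : h.act 0 x = x := by
  simp [act]

theorem act_neg (g : ℤ × ℤ) (x : A) : h.act (-g) x = (h.act g).symm x := by
  rw [Equiv.eq_symm_apply, ← h.act_add, add_neg_cancel, h.act_zero]

theorem act_s (x : A) : h.act (1, 0) x = s x := by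
  simp [act, S]

theorem act_t (x : A) : h.act (0, 1) x = t x := by
  simp [act, T]

theorem act_s_symm (x : A) : (h.act (1, 0)).symm x = s' x := by
  rw [Equiv.symm_apply_eq, act_s, h.ss']

theorem act_t_symm (x : A) : (h.act (0, 1)).symm x = t' x := by
  rw [Equiv.symm_apply_eq, act_t, h.tt']

/-- The translates of the band operation. -/
def fg (g : ℤ × ℤ) (x y : A) : A := h.act g (f ((h.act g).symm x) ((h.act g).symm y))

theorem fg_zero : h.fg 0 = f := by
  funext x y
  unfold fg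
  rw [h.act_zero, ← h.act_neg, ← h.act_neg, neg_zero, h.act_zero, h.act_zero]

theorem act_symm_symm (g k : ℤ × ℤ) (x : A) :
    (h.act (k + g)).symm (h.act k x) = (h.act g).symm x := by
  rw [Equiv.symm_apply_eq, act_add, Equiv.apply_symm_apply]

theorem act_fg (g k : ℤ × ℤ) (x y : A) :
    h.act k (h.fg g x y) = h.fg (k + g) (h.act k x) (h.act k y) := by
  unfold fg
  rw [h.act_symm_symm, h.act_symm_symm, h.act_add]

theorem fg_band (g : ℤ × ℤ) : RB (h.fg g) := by
  refine ⟨fun x => ?_, fun x y z => ?_, fun x y z => ?_⟩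
  · simp [fg, h.band.idem]
  · simp [fg, h.band.l]
  · simp [fg, h.band.r]

theorem fg_led (g : ℤ × ℤ) : h.fg (g + (0, 1)) = xorOp (h.fg g) (h.fg (g + (1, 0))) := by
  funext x y
  have e1 : ∀ a b, h.fg (0, 1) a b = h.fg 0 (h.fg (1, 0) b a) (h.fg (1, 0) a b) := by
    intro a b
    have := h.led a b
    rw [h.fg_zero]
    simp only [fg, act_s, act_t, act_s_symm, act_t_symm]
    exact this
  have e2 := congrArg (h.act g) (e1 ((h.act g).symm x) ((h.act g).symm y))
  simp only [act_fg, Equiv.apply_symm_apply, add_zero] at e2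
  exact e2

theorem Cm_translate (k g g' : ℤ × ℤ) (hc : Cm (h.fg g) (h.fg g')) :
    Cm (h.fg (k + g)) (h.fg (k + g')) := by
  intro x y z w
  have := congrArg (h.act k) (hc ((h.act k).symm x) ((h.act k).symm y) ((h.act k).symm z)
    ((h.act k).symm w))
  simpa only [act_fg, Equiv.apply_symm_apply] using this

/-- Commutation of `f` with its translate by `g`. -/
def C (g : ℤ × ℤ) : Prop := Cm (h.fg 0) (h.fg g)

theorem C_of {g g' : ℤ × ℤ} (hc : h.C (g' - g)) : Cm (h.fg g) (h.fg g') := by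
  have := h.Cm_translate g _ _ hc
  simpa using this

theorem C_neg {g : ℤ × ℤ} (hc : h.C g) : h.C (-g) := by
  have := (h.Cm_translate (-g) _ _ hc).symm
  simpa [C] using this

theorem C_zero : h.C 0 := (h.fg_band 0).self

theorem C_one : h.C (1, 0) := by
  intro x y z w
  rw [h.fg_zero]
  simp only [fg, act_s, act_s_symm]
  exact h.comm x y z w

theorem C_step (n : ℕ) (h0 : h.C ((n : ℤ), 0)) (h1 : h.C ((n : ℤ) + 1, 0)) :
    h.C ((n : ℤ) + 2, 0) := by
  -- `D = f_{(0,1)}`, `e = f_{(1,0)}`, `d = f_{(n+1,0)}`, `E = f_{(n+1,1)}`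
  have hD : h.fg (0, 1) = xorOp (h.fg 0) (h.fg (1, 0)) := by
    have := h.fg_led 0
    simpa using this
  have hf0 : h.fg 0 = xorOp (h.fg (0, 1)) (h.fg (1, 0)) := by
    rw [hD, xor_cancel (h.fg_band _)]
  have hE : h.fg ((n : ℤ) + 1, 1) =
      xorOp (h.fg ((n : ℤ) + 1, 0)) (h.fg ((n : ℤ) + 2, 0)) := by
    have := h.fg_led ((n : ℤ) + 1, 0)
    have e1 : (((n : ℤ) + 1, 0) : ℤ × ℤ) + (0, 1) = ((n : ℤ) + 1, 1) := by simp
    have e2 : (((n : ℤ) + 1, 0) : ℤ × ℤ) + (1, 0) = ((n : ℤ) + 2, 0) := by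
      ext <;> simp; ring
    rwa [e1, e2] at this
  have hf2 : h.fg ((n : ℤ) + 2, 0) =
      xorOp (h.fg ((n : ℤ) + 1, 0)) (h.fg ((n : ℤ) + 1, 1)) := by
    rw [hE, xor_cancel' (h.fg_band _)]
  have c1 : Cm (h.fg (0, 1)) (h.fg ((n : ℤ) + 1, 1)) := by
    apply h.C_of
    have : (((n : ℤ) + 1, 1) : ℤ × ℤ) - (0, 1) = ((n : ℤ) + 1, 0) := by simp
    rw [this]; exact h1
  have c2 : Cm (h.fg (1, 0)) (h.fg ((n : ℤ) + 1, 0)) := by
    apply h.C_of
    have : (((n : ℤ) + 1, 0) : ℤ × ℤ) - (1, 0) = ((n : ℤ), 0) := by simp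
    rw [this]; exact h0
  have c3 : Cm (h.fg (0, 1)) (h.fg ((n : ℤ) + 1, 0)) := by
    rw [hD]
    exact (Cm.xor (Cm.symm h1) c2.symm).symm
  have c4 : Cm (h.fg (1, 0)) (h.fg ((n : ℤ) + 1, 1)) := by
    rw [hE]
    refine Cm.xor c2 ?_
    apply h.C_of
    have : (((n : ℤ) + 2, 0) : ℤ × ℤ) - (1, 0) = ((n : ℤ) + 1, 0) := by
      ext <;> simp; ring
    rw [this]; exact h1
  unfold C
  rw [hf2]
  refine Cm.xor h1 ?_
  rw [hf0]
  exact (Cm.xor c1.symm c4.symm).symm

theorem C_nat (n : ℕ) : h.C ((n : ℤ), 0) ∧ h.C ((n : ℤ) + 1, 0) := by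
  induction n with
  | zero => exact ⟨h.C_zero, by simpa using h.C_one⟩
  | succ n ih =>
    refine ⟨by simpa using ih.2, ?_⟩
    have := h.C_step n ih.1 ih.2
    have e : ((((n + 1 : ℕ) : ℤ) + 1, 0) : ℤ × ℤ) = ((n : ℤ) + 2, 0) := by
      ext <;> simp; ring
    rw [e]
    exact this

theorem C_row (n : ℤ) : h.C (n, 0) := by
  obtain ⟨m, rfl | rfl⟩ := n.eq_nat_or_neg
  · exact (h.C_nat m).1
  · have := h.C_neg (h.C_nat m).1
    simpa using this

theorem C_up (m : ℕ) : ∀ n : ℤ, h.C (n, (m : ℤ)) := by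
  induction m with
  | zero => intro n; simpa using h.C_row n
  | succ m ih =>
    intro n
    have := h.fg_led (n, (m : ℤ))
    have e1 : ((n, (m : ℤ)) : ℤ × ℤ) + (0, 1) = (n, ((m + 1 : ℕ) : ℤ)) := by simp
    have e2 : ((n, (m : ℤ)) : ℤ × ℤ) + (1, 0) = (n + 1, (m : ℤ)) := by simp
    rw [e1, e2] at this
    unfold C
    rw [this]
    exact Cm.xor (ih n) (ih (n + 1))

theorem C_all (g : ℤ × ℤ) : h.C g := by
  obtain ⟨n, m⟩ := g
  obtain ⟨k, rfl | rfl⟩ := m.eq_nat_or_neg
  · exact h.C_up k n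
  · have := h.C_neg (h.C_up k (-n))
    simpa using this

theorem fg_comm (g g' : ℤ × ℤ) : Cm (h.fg g) (h.fg g') := h.C_of (h.C_all _)

end IsAlg

end Pinus
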