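import Pool.Agent.Helper672.Pinus.Defs

/-!
# Second-order inequivalence of a successor and a limit cardinal
-/

open Cardinal

universe u

namespace Pinus

/-! ### Sizes of sets and permutations -/

section
variable {M : Type u}

/-- The support of a permutation. -/
def supp (p : Equiv.Perm M) : Set M := {x | p x ≠ x}

/-- Sets containing a copy of their complement. -/
def BigSet (Z : Set M) : Prop := ∃ r : Equiv.Perm M, ∀ x, x ∉ Z → r x ∈ Z

theorem not_bigSet_of_lt [Infinite M] {Z : Set M} (h : #Z < #M) : ¬ BigSet Z := by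
  rintro ⟨r, hr⟩
  have h1 : #(Zᶜ : Set M) ≤ #Z := by
    refine Cardinal.mk_le_of_injective (f := fun x : (Zᶜ : Set M) => (⟨r x.1, hr x.1 x.2⟩ : Z)) ?_
    intro x y hxy
    exact Subtype.ext (r.injective (congrArg Subtype.val hxy))
  rw [Cardinal.mk_compl_of_infinite Z h] at h1
  exact absurd h1 (not_le.2 h)

theorem bigSet_of_le {Z : Set M} (h : #M ≤ #Z) : BigSet Z := by
  classical
  have h1 : #(Zᶜ : Set M) ≤ #Z := (Cardinal.mk_set_le _).trans h
  obtain ⟨j⟩ := Cardinal.le_def _ _ |>.1 h1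
  let r : M → M := fun x => if hx : x ∈ Zᶜ then (j ⟨x, hx⟩).1 else
    if hy : ∃ y : (Zᶜ : Set M), (j y).1 = x then hy.choose.1 else x
  have r1 : ∀ y : (Zᶜ : Set M), r y.1 = (j y).1 := by
    intro y
    change dite _ _ _ = _
    rw [dif_pos y.2]
  have r2 : ∀ y : (Zᶜ : Set M), r (j y).1 = y.1 := by
    intro y
    have hn : (j y).1 ∉ Zᶜ := fun h => h (j y).2
    have hex : ∃ y' : (Zᶜ : Set M), (j y').1 = (j y).1 := ⟨y, rfl⟩
    change dite _ _ _ = _
    rw [dif_neg hn, dif_pos hex]
    have := hex.choose_spec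
    have h3 := j.injective (Subtype.ext this)
    rw [h3]
  have hinv : Function.Involutive r := by
    intro x
    by_cases hx : x ∈ Zᶜ
    · have := r1 ⟨x, hx⟩
      rw [this, r2]
    · by_cases hy : ∃ y : (Zᶜ : Set M), (j y).1 = x
      · obtain ⟨y, rfl⟩ := hy
        rw [r2, r1]
      · have : r x = x := by
          change dite _ _ _ = _
          rw [dif_neg hx, dif_neg hy]
        rw [this, this]
  refine ⟨hinv.toPerm, fun x hx => ?_⟩
  change r x ∈ Z
  rw [r1 ⟨x, hx⟩]
  exact (j ⟨x, hx⟩).2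

theorem bigSet_iff [Infinite M] {Z : Set M} : BigSet Z ↔ ¬ #Z < #M :=
  ⟨fun h h' => not_bigSet_of_lt h' h, fun h => bigSet_of_le (not_lt.1 h)⟩

theorem exists_perm_into [Infinite M] {W Z : Set M} (hWZ : #W ≤ #Z) (hZ : #Z < #M) :
    ∃ r : Equiv.Perm M, ∀ x ∈ W, r x ∈ Z := by
  classical
  obtain ⟨j⟩ := Cardinal.le_def _ _ |>.1 hWZ
  let R : Set M := Set.range fun x : W => (j x).1
  have hjinj : Function.Injective fun x : W => (j x).1 :=
    Subtype.val_injective.comp j.injective
  have hR : #R = #W := Cardinal.mk_range_eq _ hjinj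
  have hWlt : #W < #M := hWZ.trans_lt hZ
  have h1 : #(Wᶜ : Set M) = #(Rᶜ : Set M) := by
    rw [Cardinal.mk_compl_of_infinite W hWlt, Cardinal.mk_compl_of_infinite R (by rwa [hR])]
  obtain ⟨f⟩ := Cardinal.eq.1 h1
  let e : {x // x ∈ W} ≃ {x // x ∈ R} := Equiv.ofInjective _ hjinj
  let f' : {x // ¬ x ∈ W} ≃ {x // ¬ x ∈ R} := f
  refine ⟨Equiv.subtypeCongr e f', fun x hx => ?_⟩
  have : (Equiv.subtypeCongr e f') x = (e ⟨x, hx⟩).1 := by
    simp [Equiv.subtypeCongr, hx]
  rw [this]
  exact (j ⟨x, hx⟩).2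

theorem exists_supp {Z : Set M} (hZ : ℵ₀ ≤ #Z) : ∃ p : Equiv.Perm M, supp p = Z := by
  classical
  have h2 : (2 : Cardinal) ≤ #Z := (Cardinal.natCast_lt_aleph0 (n := 2)).le.trans hZ
  have h1 : #Z = #(Z × Bool) := by
    rw [Cardinal.mk_prod, Cardinal.lift_uzero, Cardinal.mk_bool, Cardinal.lift_ofNat,
      Cardinal.mul_eq_left hZ h2 two_ne_zero]
  obtain ⟨e⟩ := Cardinal.eq.1 h1
  let s : Equiv.Perm (Z × Bool) := (Equiv.refl Z).prodCongr Equiv.boolNot
  have hs : ∀ a, s a ≠ a := by
    rintro ⟨a, b⟩ h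
    have h3 : (!b) = b := congrArg Prod.snd h
    cases b <;> exact absurd h3 (by decide)
  let t : Equiv.Perm Z := (e.trans s).trans e.symm
  have ht : ∀ a, t a ≠ a := by
    intro a h
    apply hs (e a)
    have : e.symm (s (e a)) = a := h
    rw [Equiv.symm_apply_eq] at this
    exact this
  refine ⟨Equiv.Perm.ofSubtype t, ?_⟩
  ext x
  change Equiv.Perm.ofSubtype t x ≠ x ↔ x ∈ Z
  constructor
  · intro h
    by_contra hx
    exact h (Equiv.Perm.ofSubtype_apply_of_not_mem t hx)
  · intro hx h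
    rw [Equiv.Perm.ofSubtype_apply_of_mem t hx] at h
    exact ht ⟨x, hx⟩ (Subtype.ext h)

end

/-- The property expressed by the sentence with permutation variables. -/
def PropP (M : Type u) : Prop :=
  ∃ p : Equiv.Perm M, ¬ BigSet (supp p) ∧ ∀ q : Equiv.Perm M, ¬ BigSet (supp q) →
    ∃ r : Equiv.Perm M, ∀ x ∈ supp q, r x ∈ supp p

theorem propP_succ {M : Type u} {c : Cardinal.{u}} (hc : ℵ₀ ≤ c) (hM : #M = Order.succ c) :
    PropP M := by
  haveI : Infinite M := Cardinal.infinite_iff.2 (by rw [hM]; exact hc.trans (Order.le_succ _))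
  obtain ⟨Z, hZ⟩ := Cardinal.le_mk_iff_exists_set.1 (show c ≤ #M by rw [hM]; exact Order.le_succ _)
  obtain ⟨p, hp⟩ := exists_supp (Z := Z) (by rwa [hZ])
  have hlt : #Z < #M := by rw [hZ, hM]; exact Order.lt_succ _
  refine ⟨p, by rw [hp]; exact not_bigSet_of_lt hlt, fun q hq => ?_⟩
  rw [bigSet_iff, not_not, hM, Order.lt_succ_iff, ← hZ] at hq
  rw [hp]
  exact exists_perm_into hq hlt

theorem not_propP_limit {M : Type u} (hM : ℵ₀ < #M) (hlim : ∀ c < #M, Order.succ c < #M) :
    ¬ PropP M := by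
  haveI : Infinite M := Cardinal.infinite_iff.2 hM.le
  rintro ⟨p, hp, hall⟩
  rw [bigSet_iff, not_not] at hp
  have h1 : max (Order.succ #(supp p)) ℵ₀ < #M := max_lt (hlim _ hp) hM
  obtain ⟨W, hW⟩ := Cardinal.le_mk_iff_exists_set.1 h1.le
  obtain ⟨q, hq⟩ := exists_supp (Z := W) (by rw [hW]; exact le_max_right _ _)
  obtain ⟨r, hr⟩ := hall q (by rw [hq]; exact not_bigSet_of_lt (by rwa [hW]))
  rw [hq] at hr
  have h2 : #W ≤ #(supp p) := by
    refine Cardinal.mk_le_of_injective (f := fun x : W => (⟨r x.1, hr x.1 x.2⟩ : supp p)) ?_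
    intro x y hxy
    exact Subtype.ext (r.injective (congrArg Subtype.val hxy))
  rw [hW] at h2
  exact absurd (Order.succ_le_iff.1 ((le_max_left _ _).trans h2)) (lt_irrefl _)

/-! ### Injections between sets, by binary relations -/

/-- Existence of an injection, in the form used in the second-order sentence. -/
def Injects {M : Type u} (W Z : (Fin 1 → M) → Prop) : Prop :=
  ∃ F : (Fin 2 → M) → Prop, (∀ x, W (fun _ => x) → ∃ y, Z (fun _ => y) ∧ F ![x, y]) ∧
    ∀ x x' y, F ![x, y] → F ![x', y] → x = x'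

theorem injects_iff {M : Type u} {W Z : (Fin 1 → M) → Prop} :
    Injects W Z ↔ #{x : M // W (fun _ => x)} ≤ #{x : M // Z (fun _ => x)} := by
  constructor
  · rintro ⟨F, h1, h2⟩
    choose f hf1 hf2 using h1
    refine Cardinal.mk_le_of_injective
      (f := fun x : {x : M // W (fun _ => x)} => (⟨f x.1 x.2, hf1 x.1 x.2⟩ :
        {x : M // Z (fun _ => x)})) ?_
    intro x y hxy
    have h3 : f x.1 x.2 = f y.1 y.2 := congrArg Subtype.val hxy
    have h4 := hf2 x.1 x.2
    rw [h3] at h4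
    exact Subtype.ext (h2 _ _ _ h4 (hf2 y.1 y.2))
  · intro h
    obtain ⟨j⟩ := Cardinal.le_def _ _ |>.1 h
    refine ⟨fun a => ∃ h : W (fun _ => a 0), (j ⟨a 0, h⟩).1 = a 1, ?_, ?_⟩
    · intro x hx
      exact ⟨(j ⟨x, hx⟩).1, (j ⟨x, hx⟩).2, hx, rfl⟩
    · rintro x x' y ⟨h1, h2⟩ ⟨h3, h4⟩
      have h5 : j ⟨x, h1⟩ = j ⟨x', h3⟩ := Subtype.ext (h2.trans h4.symm)
      exact congrArg Subtype.val (j.injective h5)

/-- The property expressed by the second-order sentence. -/
def PropS (M : Type u) : Prop :=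
  ∃ Z : (Fin 1 → M) → Prop, ¬ Injects (fun _ => True) Z ∧
    ∀ W : (Fin 1 → M) → Prop, ¬ Injects (fun _ => True) W → Injects W Z

theorem mk_true (M : Type u) : #{_x : M // True} = #M :=
  Cardinal.mk_congr (Equiv.subtypeUnivEquiv fun _ => trivial)

theorem propS_succ {M : Type u} {c : Cardinal.{u}} (hM : #M = Order.succ c) :
    PropS M := by
  obtain ⟨Z, hZ⟩ := Cardinal.le_mk_iff_exists_set.1 (show c ≤ #M by rw [hM]; exact Order.le_succ _)
  refine ⟨fun a => a 0 ∈ Z, ?_, fun W hW => ?_⟩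
  · rw [injects_iff, mk_true]
    change ¬ (#M ≤ #Z)
    rw [hZ, hM, not_le]
    exact Order.lt_succ _
  · rw [injects_iff, mk_true, not_le, hM, Order.lt_succ_iff] at hW
    rw [injects_iff]
    change _ ≤ #Z
    rwa [hZ]

theorem not_propS_limit {M : Type u} (hlim : ∀ c < #M, Order.succ c < #M) :
    ¬ PropS M := by
  rintro ⟨Z, hZ, hall⟩
  rw [injects_iff, mk_true, not_le] at hZ
  obtain ⟨W, hW⟩ := Cardinal.le_mk_iff_exists_set.1 (hlim _ hZ).le
  have h1 := hall (fun a => a 0 ∈ W) (by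
    rw [injects_iff, mk_true]
    change ¬ (#M ≤ #W)
    rw [hW, not_le]
    exact hlim _ hZ)
  rw [injects_iff] at h1
  change #W ≤ _ at h1
  rw [hW] at h1
  exact absurd (Order.succ_le_iff.1 h1) (lt_irrefl _)

/-! ### The sentences -/

namespace PermFormula

/-- negation -/
def neg (φ : PermFormula) : PermFormula := .imp φ .fls
/-- conjunction -/
def conj (φ ψ : PermFormula) : PermFormula := neg (.imp φ (neg ψ))
/-- existential quantification over permutations -/
def exPerm (k : ℕ) (φ : PermFormula) : PermFormula := neg (.allPerm k (neg φ))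
/-- `π_k x_i = x_i` -/
def fixed (k i : ℕ) : PermFormula := .eq (.app k (.var i)) (.var i)
/-- `π_k (π_l x_i) = π_l x_i` -/
def fixed2 (k l i : ℕ) : PermFormula := .eq (.app k (.app l (.var i))) (.app l (.var i))

/-- the support of `π_k` is big -/
def big (k : ℕ) : PermFormula :=
  exPerm 7 (.allElem 0 (.imp (fixed k 0) (neg (fixed2 k 7 0))))

/-- The sentence. -/
def sent : PermFormula :=
  exPerm 0 (conj (neg (big 0)) (.allPerm 1 (.imp (neg (big 1))
    (exPerm 2 (.allElem 0 (.imp (neg (fixed 1 0)) (neg (fixed2 0 2 0))))))))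

theorem sat_neg {M : Type u} (φ : PermFormula) (v : ℕ → M) (p : ℕ → Equiv.Perm M) :
    (neg φ).Sat M v p ↔ ¬ φ.Sat M v p := Iff.rfl

theorem sat_conj {M : Type u} (φ ψ : PermFormula) (v : ℕ → M) (p : ℕ → Equiv.Perm M) :
    (conj φ ψ).Sat M v p ↔ (φ.Sat M v p ∧ ψ.Sat M v p) := by
  simp only [conj, sat_neg, Sat, _root_.not_imp, not_not]

theorem sat_exPerm {M : Type u} (k : ℕ) (φ : PermFormula) (v : ℕ → M) (p : ℕ → Equiv.Perm M) :
    (exPerm k φ).Sat M v p ↔ ∃ q : Equiv.Perm M, φ.Sat M v (Function.update p k q) := by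
  simp only [exPerm, sat_neg, Sat, not_forall, not_not]

theorem sat_big {M : Type u} (k : ℕ) (hk : k ≠ 7) (v : ℕ → M) (p : ℕ → Equiv.Perm M) :
    (big k).Sat M v p ↔ BigSet (supp (p k)) := by
  simp only [big, sat_exPerm, sat_neg, Sat, fixed, fixed2, PermTerm.val, Function.update_self,
    Function.update_of_ne hk, BigSet, supp, Set.mem_ofPred_eq, not_not, ne_eq]

theorem sat_sent {M : Type u} (v : ℕ → M) (p : ℕ → Equiv.Perm M) :
    sent.Sat M v p ↔ PropP M := by
  have h70 : (0 : ℕ) ≠ 7 := by decide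
  have h71 : (1 : ℕ) ≠ 7 := by decide
  have h12 : (1 : ℕ) ≠ 2 := by decide
  have h02 : (0 : ℕ) ≠ 2 := by decide
  have h01 : (0 : ℕ) ≠ 1 := by decide
  simp only [sent, sat_exPerm, sat_conj, sat_neg, Sat, sat_big _ h70, sat_big _ h71, fixed,
    fixed2, PermTerm.val, Function.update_self, Function.update_of_ne h12,
    Function.update_of_ne h02, Function.update_of_ne h01, PropP, supp, Set.mem_ofPred_eq, ne_eq]

theorem sent_isSentence : sent.IsSentence := by
  constructor <;>
  · ext n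
    simp [sent, exPerm, conj, neg, big, fixed, fixed2, freeElem, freePerm,
      PermTerm.freeElem, PermTerm.freePerm]
    try omega

theorem trueIn_sent {M : Type u} [Nonempty M] : sent.TrueIn M ↔ PropP M := by
  constructor
  · intro h
    exact (sat_sent (fun _ => Classical.arbitrary M) (fun _ => 1)).1 (h _ _)
  · intro h v p
    exact (sat_sent v p).2 h

end PermFormula

namespace SOFormula

/-- negation -/
def neg (φ : SOFormula) : SOFormula := .imp φ .fls
/-- conjunction -/
def conj (φ ψ : SOFormula) : SOFormula := neg (.imp φ (neg ψ))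
/-- existential quantification over elements -/
def exElem (k : ℕ) (φ : SOFormula) : SOFormula := neg (.allElem k (neg φ))
/-- existential quantification over relations -/
def exRel (n k : ℕ) (φ : SOFormula) : SOFormula := neg (.allRel n k (neg φ))
/-- truth -/
def tru (_ : ℕ) : SOFormula := .imp .fls .fls
/-- the `k`-th set variable applied to `x_i` -/
def un (k i : ℕ) : SOFormula := .rel 1 k (fun _ => i)
/-- the binary relation variable applied to `x_i`, `x_j` -/
def bi (i j : ℕ) : SOFormula := .rel 2 0 ![i, j]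

/-- there is an injection -/
def inj (A B : ℕ → SOFormula) : SOFormula :=
  exRel 2 0 (conj (.allElem 0 (.imp (A 0) (exElem 1 (conj (B 1) (bi 0 1)))))
    (.allElem 0 (.allElem 1 (.allElem 2 (.imp (bi 0 2) (.imp (bi 1 2) (.eq 0 1)))))))

/-- The sentence. -/
def sent : SOFormula :=
  exRel 1 0 (conj (neg (inj tru (un 0))) (.allRel 1 1 (.imp (neg (inj tru (un 1)))
    (inj (un 1) (un 0)))))

section
variable {M : Type u} (v : ℕ → M) (R : (n : ℕ) → ℕ → (Fin n → M) → Prop)

theorem sat_neg (φ : SOFormula) : (neg φ).Sat M v R ↔ ¬ φ.Sat M v R := Iff.rfl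

theorem sat_conj (φ ψ : SOFormula) :
    (conj φ ψ).Sat M v R ↔ (φ.Sat M v R ∧ ψ.Sat M v R) := by
  simp only [conj, sat_neg, Sat, _root_.not_imp, not_not]

theorem sat_exElem (k : ℕ) (φ : SOFormula) :
    (exElem k φ).Sat M v R ↔ ∃ a : M, φ.Sat M (Function.update v k a) R := by
  simp only [exElem, sat_neg, Sat, not_forall, not_not]

theorem sat_exRel (n k : ℕ) (φ : SOFormula) :
    (exRel n k φ).Sat M v R ↔ ∃ P : (Fin n → M) → Prop,
      φ.Sat M v (Function.update R n (Function.update (R n) k P)) := by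
  simp only [exRel, sat_neg, Sat, not_forall, not_not]

theorem sat_un (k i : ℕ) : (un k i).Sat M v R ↔ R 1 k (fun _ => v i) := Iff.rfl

theorem vec2 (i j : ℕ) : (fun a : Fin 2 => v (![i, j] a)) = ![v i, v j] := by
  funext a
  fin_cases a <;> rfl

theorem sat_bi (i j : ℕ) : (bi i j).Sat M v R ↔ R 2 0 ![v i, v j] := by
  rw [← vec2]
  exact Iff.rfl

theorem sat_tru (i : ℕ) : (tru i).Sat M v R ↔ True := by simp [tru, Sat]

theorem sat_inj_un (k l : ℕ) :
    (inj (un k) (un l)).Sat M v R ↔ Injects (R 1 k) (R 1 l) := by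
  have h12 : (1 : ℕ) ≠ 2 := by decide
  have h01 : (0 : ℕ) ≠ 1 := by decide
  have h02 : (0 : ℕ) ≠ 2 := by decide
  simp only [inj, sat_exRel, sat_conj, sat_exElem, sat_un, sat_bi, Sat, Function.update_self,
    Function.update_of_ne h12, Function.update_of_ne h01, Function.update_of_ne h02, Injects]

theorem sat_inj_tru (l : ℕ) :
    (inj tru (un l)).Sat M v R ↔ Injects (fun _ => True) (R 1 l) := by
  have h12 : (1 : ℕ) ≠ 2 := by decide
  have h01 : (0 : ℕ) ≠ 1 := by decide
  have h02 : (0 : ℕ) ≠ 2 := by decide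
  simp only [inj, sat_exRel, sat_conj, sat_exElem, sat_un, sat_bi, sat_tru, Sat,
    Function.update_self,
    Function.update_of_ne h12, Function.update_of_ne h01, Function.update_of_ne h02, Injects]

theorem sat_sent : sent.Sat M v R ↔ PropS M := by
  have h01 : (0 : ℕ) ≠ 1 := by decide
  simp only [sent, sat_exRel, sat_conj, sat_neg, sat_inj_tru, sat_inj_un, Sat,
    Function.update_self, Function.update_of_ne h01, PropS]

end

theorem sent_isSentence : sent.IsSentence := by
  constructor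
  · ext n
    simp [sent, exRel, exElem, conj, neg, inj, tru, un, bi, freeElem]
    try omega
  · ext n
    simp [sent, exRel, exElem, conj, neg, inj, tru, un, bi, freeRel]
    try omega

theorem trueIn_sent {M : Type u} [Nonempty M] : sent.TrueIn M ↔ PropS M := by
  constructor
  · intro h
    exact (sat_sent (fun _ => Classical.arbitrary M) (fun _ _ _ => True)).1 (h _ _)
  · intro h v p
    exact (sat_sent v p).2 h

end SOFormula

/-! ### Two cardinals above a given one -/

theorem exists_limit (c : Cardinal.{u}) (hc : ℵ₀ ≤ c) :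
    ∃ d : Cardinal.{u}, c < d ∧ ∀ a < d, Order.succ a < d := by
  let f : ℕ → Cardinal.{u} := fun n => Order.succ^[n] c
  have hf : ∀ n, f (n + 1) = Order.succ (f n) := fun n => Function.iterate_succ_apply' _ _ _
  have hb : BddAbove (Set.range f) := Cardinal.bddAbove_range _
  have hle : ∀ n, f n ≤ ⨆ n, f n := le_ciSup hb
  refine ⟨⨆ n, f n, ?_, ?_⟩
  · refine lt_of_lt_of_le ?_ (hle 1)
    rw [hf]
    exact Order.lt_succ _
  · intro a ha
    obtain ⟨n, hn⟩ := exists_lt_of_lt_ciSup ha
    calc Order.succ a ≤ f n := Order.succ_le_of_lt hn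
      _ < Order.succ (f n) := Order.lt_succ _
      _ = f (n + 1) := (hf n).symm
      _ ≤ _ := hle _

/-- Two cardinals above a given one which are separated by both logics. -/
theorem exists_separated (c : Cardinal.{u}) (hc : ℵ₀ ≤ c) :
    ∃ κ μ : InfCard.{u}, c < κ.1 ∧ c < μ.1 ∧ ¬ equiv2 κ μ ∧ ¬ equiv2p κ μ := by
  obtain ⟨d, hcd, hd⟩ := exists_limit c hc
  refine ⟨⟨Order.succ c, hc.trans (Order.le_succ _)⟩, ⟨d, hc.trans hcd.le⟩, Order.lt_succ _,
    hcd, ?_, ?_⟩
  · intro h
    have h1 := h SOFormula.sent SOFormula.sent_isSentence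
    haveI : Infinite (Order.succ c).out := Cardinal.infinite_iff.2 (by
      rw [Cardinal.mk_out]; exact hc.trans (Order.le_succ _))
    haveI : Infinite d.out := Cardinal.infinite_iff.2 (by
      rw [Cardinal.mk_out]; exact hc.trans hcd.le)
    rw [SOFormula.trueIn_sent, SOFormula.trueIn_sent] at h1
    refine not_propS_limit ?_ (h1.1 (propS_succ (c := c) (Cardinal.mk_out _)))
    rw [Cardinal.mk_out]
    exact hd
  · intro h
    have h1 := h PermFormula.sent PermFormula.sent_isSentence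
    haveI : Infinite (Order.succ c).out := Cardinal.infinite_iff.2 (by
      rw [Cardinal.mk_out]; exact hc.trans (Order.le_succ _))
    haveI : Infinite d.out := Cardinal.infinite_iff.2 (by
      rw [Cardinal.mk_out]; exact hc.trans hcd.le)
    rw [PermFormula.trueIn_sent, PermFormula.trueIn_sent] at h1
    refine not_propP_limit ?_ ?_ (h1.1 (propP_succ (c := c) hc (Cardinal.mk_out _)))
    · rw [Cardinal.mk_out]
      exact hc.trans_lt hcd
    · rw [Cardinal.mk_out]
      exact hd

end Pinus
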