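import Mathlib

open FirstOrder

universe u

namespace Pinus

/-!
# Definitions used in the statement about Pinus' problem

Varieties, free algebras, the relation given by the lattices of subalgebras of free
algebras, and the three relations `nabla`, `equiv2`, `equiv2p` on infinite cardinals.
-/

/-- A finitely based variety of universal algebras: an algebraic signature (operation symbols
only), here moreover a finite one, together with a finite set of identities, i.e. of pairs of
terms in variables indexed by `ℕ`. -/
structure FBVariety where
  sig : FirstOrder.Language.{0, 0}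
  algebraic : sig.IsAlgebraic
  finite_sig : Finite (Σ n : ℕ, sig.Functions n)
  identities : Set (sig.Term ℕ × sig.Term ℕ)
  finite_identities : identities.Finite

/-- The algebra `A` belongs to the variety: it satisfies all the identities. -/
def InVariety (V : FBVariety) (A : Type u) [V.sig.Structure A] : Prop :=
  ∀ e ∈ V.identities, ∀ v : ℕ → A, e.1.realize v = e.2.realize v

/-- The algebra of terms over the set `X` of generators. -/
@[implicit_reducible]
def termStructure (V : FBVariety) (X : Type u) : V.sig.Structure (V.sig.Term X) where
  funMap := fun f ts => FirstOrder.Language.Term.func f ts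
  RelMap := fun {n} r _ => (V.algebraic n).elim r

/-- Two terms over `X` are identified when they take the same value in every algebra of the
variety, under every assignment of elements to the generators. -/
@[implicit_reducible]
def freeSetoid (V : FBVariety) (X : Type u) : Setoid (V.sig.Term X) where
  r s t := ∀ (A : Type u) [V.sig.Structure A], InVariety V A →
    ∀ v : X → A, s.realize v = t.realize v
  iseqv :=
    { refl := fun _ _ _ _ _ => rfl
      symm := fun h A _ hA v => (h A hA v).symm
      trans := fun h h' A _ hA v => (h A hA v).trans (h' A hA v) }

/-- Identification of terms is a congruence of the algebra of terms. -/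
@[implicit_reducible]
def freePrestructure (V : FBVariety) (X : Type u) : V.sig.Prestructure (freeSetoid V X) where
  toStructure := termStructure V X
  fun_equiv := by
    intro n f x y h A _ hA v
    change FirstOrder.Language.Structure.funMap f (fun i => (x i).realize v) =
      FirstOrder.Language.Structure.funMap f (fun i => (y i).realize v)
    congr 1
    funext i
    exact h i A hA v
  rel_equiv := by
    intro n r x y _
    exact (V.algebraic n).elim r

/-- The free algebra of the variety with the set `X` of free generators. -/
def FreeAlg (V : FBVariety) (X : Type u) : Type u := Quotient (freeSetoid V X)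

/-- The operations of the free algebra. -/
noncomputable instance freeAlgStructure (V : FBVariety) (X : Type u) :
    V.sig.Structure (FreeAlg V X) :=
  @FirstOrder.Language.quotientStructure V.sig (V.sig.Term X) (freeSetoid V X) (freePrestructure V X)

/-- The symbols of the language of lattices. -/
inductive LatSymb : ℕ → Type
  | join : LatSymb 2
  | meet : LatSymb 2

/-- The language of lattices. -/
def latLang : FirstOrder.Language.{0, 0} := ⟨LatSymb, fun _ => Empty⟩

/-- A lattice as a structure for the language of lattices. -/
instance latStructure (M : Type u) [Lattice M] : latLang.Structure M where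
  funMap := fun {_} f => match f with
    | LatSymb.join => fun x => x 0 ⊔ x 1
    | LatSymb.meet => fun x => x 0 ⊓ x 1
  RelMap := fun r _ => r.elim

/-- The infinite cardinals. -/
abbrev InfCard : Type (u + 1) := {κ : Cardinal.{u} // Cardinal.aleph0 ≤ κ}

/-- `κ ≡_S λ` for the variety `V`: the lattices of subalgebras of the free algebras of ranks
`κ` and `λ` are elementarily equivalent, in the language of lattices. -/
def equivS (V : FBVariety) (κ μ : InfCard.{u}) : Prop :=
  latLang.ElementarilyEquivalent
    (V.sig.Substructure (FreeAlg V κ.1.out)) (V.sig.Substructure (FreeAlg V μ.1.out))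

/-- The total relation on infinite cardinals. -/
def nabla (_κ _μ : InfCard.{u}) : Prop := True

/-! ### Full second-order logic of pure sets -/

/-- Formulas of second-order logic over the empty vocabulary. `eq i j` says that the elements
`x_i` and `x_j` are equal, `rel n k xs` is the atomic formula in which the `k`-th `n`-ary
relation variable is applied to the elements `x_{xs 0}, …, x_{xs (n - 1)}`. -/
inductive SOFormula : Type
  | eq (i j : ℕ) : SOFormula
  | rel (n k : ℕ) (xs : Fin n → ℕ) : SOFormula
  | fls : SOFormula
  | imp (φ ψ : SOFormula) : SOFormula
  | allElem (i : ℕ) (φ : SOFormula) : SOFormula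
  | allRel (n k : ℕ) (φ : SOFormula) : SOFormula

/-- Satisfaction, under an assignment `v` of elements and an assignment `R` of relations. -/
def SOFormula.Sat (M : Type u) :
    SOFormula → (ℕ → M) → ((n : ℕ) → ℕ → (Fin n → M) → Prop) → Prop
  | .eq i j, v, _ => v i = v j
  | .rel n k xs, v, R => R n k (fun a => v (xs a))
  | .fls, _, _ => False
  | .imp φ ψ, v, R => φ.Sat M v R → ψ.Sat M v R
  | .allElem i φ, v, R => ∀ a : M, φ.Sat M (Function.update v i a) R
  | .allRel n k φ, v, R => ∀ P : (Fin n → M) → Prop,
      φ.Sat M v (Function.update R n (Function.update (R n) k P))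

/-- The free element variables. -/
def SOFormula.freeElem : SOFormula → Set ℕ
  | .eq i j => {i, j}
  | .rel _ _ xs => Set.range xs
  | .fls => ∅
  | .imp φ ψ => φ.freeElem ∪ ψ.freeElem
  | .allElem i φ => φ.freeElem \ {i}
  | .allRel _ _ φ => φ.freeElem

/-- The free relation variables. -/
def SOFormula.freeRel : SOFormula → Set (ℕ × ℕ)
  | .eq _ _ => ∅
  | .rel n k _ => {(n, k)}
  | .fls => ∅
  | .imp φ ψ => φ.freeRel ∪ ψ.freeRel
  | .allElem _ φ => φ.freeRel
  | .allRel n k φ => φ.freeRel \ {(n, k)}

/-- Sentences: formulas without free variables. -/
def SOFormula.IsSentence (φ : SOFormula) : Prop := φ.freeElem = ∅ ∧ φ.freeRel = ∅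

/-- Truth of a sentence in the pure set `M`. -/
def SOFormula.TrueIn (φ : SOFormula) (M : Type u) : Prop := ∀ v R, φ.Sat M v R

/-- `κ ≡_2 λ`: the same sentences of full second-order logic. -/
def equiv2 (κ μ : InfCard.{u}) : Prop :=
  ∀ φ : SOFormula, φ.IsSentence → (φ.TrueIn κ.1.out ↔ φ.TrueIn μ.1.out)

/-! ### Second-order logic whose second-order variables range over permutations -/

/-- Terms: element variables `x_i`, to which permutation variables `π_k` may be applied. -/
inductive PermTerm : Type
  | var (i : ℕ) : PermTerm
  | app (k : ℕ) (t : PermTerm) : PermTerm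

/-- Formulas of the logic with permutation variables, over the empty vocabulary. -/
inductive PermFormula : Type
  | eq (s t : PermTerm) : PermFormula
  | fls : PermFormula
  | imp (φ ψ : PermFormula) : PermFormula
  | allElem (i : ℕ) (φ : PermFormula) : PermFormula
  | allPerm (k : ℕ) (φ : PermFormula) : PermFormula

/-- The value of a term. -/
def PermTerm.val {M : Type u} (v : ℕ → M) (p : ℕ → Equiv.Perm M) : PermTerm → M
  | .var i => v i
  | .app k t => p k (t.val v p)

/-- Satisfaction, under assignments of elements and of permutations. -/
def PermFormula.Sat (M : Type u) :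
    PermFormula → (ℕ → M) → (ℕ → Equiv.Perm M) → Prop
  | .eq s t, v, p => s.val v p = t.val v p
  | .fls, _, _ => False
  | .imp φ ψ, v, p => φ.Sat M v p → ψ.Sat M v p
  | .allElem i φ, v, p => ∀ a : M, φ.Sat M (Function.update v i a) p
  | .allPerm k φ, v, p => ∀ q : Equiv.Perm M, φ.Sat M v (Function.update p k q)

/-- The element variables of a term. -/
def PermTerm.freeElem : PermTerm → Set ℕ
  | .var i => {i}
  | .app _ t => t.freeElem

/-- The permutation variables of a term. -/
def PermTerm.freePerm : PermTerm → Set ℕ
  | .var _ => ∅
  | .app k t => insert k t.freePerm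

/-- The free element variables of a formula. -/
def PermFormula.freeElem : PermFormula → Set ℕ
  | .eq s t => s.freeElem ∪ t.freeElem
  | .fls => ∅
  | .imp φ ψ => φ.freeElem ∪ ψ.freeElem
  | .allElem i φ => φ.freeElem \ {i}
  | .allPerm _ φ => φ.freeElem

/-- The free permutation variables of a formula. -/
def PermFormula.freePerm : PermFormula → Set ℕ
  | .eq s t => s.freePerm ∪ t.freePerm
  | .fls => ∅
  | .imp φ ψ => φ.freePerm ∪ ψ.freePerm
  | .allElem _ φ => φ.freePerm
  | .allPerm k φ => φ.freePerm \ {k}

/-- Sentences: formulas without free variables. -/
def PermFormula.IsSentence (φ : PermFormula) : Prop := φ.freeElem = ∅ ∧ φ.freePerm = ∅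

/-- Truth of a sentence in the pure set `M`. -/
def PermFormula.TrueIn (φ : PermFormula) (M : Type u) : Prop := ∀ v p, φ.Sat M v p

/-- `κ ≡_{2p} λ`: the same sentences of the logic with permutation variables. -/
def equiv2p (κ μ : InfCard.{u}) : Prop :=
  ∀ φ : PermFormula, φ.IsSentence → (φ.TrueIn κ.1.out ↔ φ.TrueIn μ.1.out)

end Pinus
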