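import Pool.Agent.Helper672.Pinus.Iso

/-!
# Back and forth between the lattices of families, for large ranks
-/

open FirstOrder TopologicalSpace Cardinal

universe u

namespace Pinus

/-- The threshold cardinal. -/
noncomputable def theta : Cardinal.{0} := max ℵ₀ #(Opens BB)

/-- The threshold cardinal, in the current universe. -/
noncomputable def thetaU : Cardinal.{u} := Cardinal.lift.{u} theta

theorem aleph0_le_thetaU : ℵ₀ ≤ thetaU.{u} := by
  unfold thetaU theta
  rw [Cardinal.aleph0_le_lift]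
  exact le_max_left _ _

theorem mk_opens_le : Cardinal.lift.{u} #(Opens BB) ≤ thetaU.{u} := by
  unfold thetaU theta
  rw [Cardinal.lift_le]
  exact le_max_right _ _

/-- Similar sizes. -/
def Similar (κ μ : Cardinal.{u}) : Prop := κ = μ ∨ (thetaU < κ ∧ thetaU < μ)

theorem Similar.symm {κ μ : Cardinal.{u}} (h : Similar κ μ) : Similar μ κ := by
  rcases h with h | h
  exacts [Or.inl h.symm, Or.inr ⟨h.2, h.1⟩]

theorem exists_big_fiber {P : Type u} (hP : thetaU < #P) (U : P → Opens BB) :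
    ∃ o, thetaU < #{x // U x = o} := by
  by_contra hcon
  push Not at hcon
  have h1 : #P = Cardinal.sum (fun o => #{x // U x = o}) := by
    rw [← Cardinal.mk_sigma]
    exact Cardinal.mk_congr (Equiv.sigmaFiberEquiv U).symm
  have h2 : Cardinal.sum (fun o : Opens BB => #{x // U x = o}) ≤
      Cardinal.sum (fun _ : Opens BB => thetaU.{u}) := Cardinal.sum_le_sum _ _ hcon
  rw [Cardinal.sum_const, Cardinal.lift_uzero] at h2
  have h3 : Cardinal.lift.{u} #(Opens BB) * thetaU.{u} ≤ thetaU * thetaU :=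
    mul_le_mul' mk_opens_le le_rfl
  rw [Cardinal.mul_eq_self aleph0_le_thetaU] at h3
  exact absurd (h1.trans_le (h2.trans h3)) (not_le.2 hP)

theorem extend_fiber {P Q : Type u} (h : Similar #P #Q) (U : P → Opens BB) :
    ∃ V : Q → Opens BB, ∀ o, Similar #{x // U x = o} #{y // V y = o} := by
  classical
  rcases h with h | ⟨hP, hQ⟩
  · obtain ⟨e⟩ := Cardinal.eq.1 h
    refine ⟨U ∘ e.symm, fun o => Or.inl ?_⟩
    refine Cardinal.mk_congr (e.subtypeEquiv fun x => ?_)
    simp
  · obtain ⟨o', ho'⟩ := exists_big_fiber hP U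
    have hex : ∀ o, ∃ D : Set P, (∀ x ∈ D, U x = o) ∧ #D ≤ Order.succ thetaU ∧
        (#{x // U x = o} ≤ thetaU → ∀ x, U x = o → x ∈ D) ∧
        (thetaU < #{x // U x = o} → thetaU < #D) := by
      intro o
      by_cases ho : #{x // U x = o} ≤ thetaU
      · refine ⟨{x | U x = o}, fun x hx => hx, ho.trans (Order.le_succ _), fun _ x hx => hx,
          fun h => absurd ho (not_le.2 h)⟩
      · have h1 : Order.succ thetaU ≤ #({x | U x = o} : Set P) :=
          Order.succ_le_of_lt (not_le.1 ho)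
        obtain ⟨D, hD, hDc⟩ := Cardinal.le_mk_iff_exists_subset.1 h1
        refine ⟨D, fun x hx => hD hx, hDc.le, fun h => absurd h ho, fun _ => ?_⟩
        rw [hDc]
        exact Order.lt_succ _
    choose D hD1 hD2 hD3 hD4 using hex
    have hsucc : ℵ₀ ≤ Order.succ thetaU.{u} := aleph0_le_thetaU.trans (Order.le_succ _)
    have hcard : #(⋃ o, D o : Set P) ≤ #Q := by
      have h1 := Cardinal.mk_iUnion_le_sum_mk_lift (f := D)
      rw [Cardinal.lift_uzero] at h1
      have h2 : Cardinal.sum (fun o : Opens BB => #(D o)) ≤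
          Cardinal.sum (fun _ : Opens BB => Order.succ thetaU.{u}) := Cardinal.sum_le_sum _ _ hD2
      rw [Cardinal.sum_const, Cardinal.lift_uzero] at h2
      have h3 : Cardinal.lift.{u} #(Opens BB) * Order.succ thetaU.{u} ≤
          Order.succ thetaU * Order.succ thetaU :=
        mul_le_mul' (mk_opens_le.trans (Order.le_succ _)) le_rfl
      rw [Cardinal.mul_eq_self hsucc] at h3
      exact (h1.trans (h2.trans h3)).trans (Order.succ_le_of_lt hQ)
    obtain ⟨j⟩ := Cardinal.le_def _ _ |>.1 hcard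
    let V : Q → Opens BB := fun y =>
      if h : ∃ d : (⋃ o, D o : Set P), j d = y then U h.choose.1 else o'
    have hV : ∀ d : (⋃ o, D o : Set P), V (j d) = U d.1 := by
      intro d
      have h : ∃ d' : (⋃ o, D o : Set P), j d' = j d := ⟨d, rfl⟩
      have h2 : h.choose = d := j.injective h.choose_spec
      change (if h : ∃ d' : (⋃ o, D o : Set P), j d' = j d then U h.choose.1 else o') = _
      rw [dif_pos h, h2]
    have hV' : ∀ y, V y ≠ o' → ∃ d : (⋃ o, D o : Set P), j d = y := by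
      intro y hy
      by_contra hcon
      apply hy
      change (if h : ∃ d' : (⋃ o, D o : Set P), j d' = y then U h.choose.1 else o') = _
      rw [dif_neg hcon]
    refine ⟨V, fun o => ?_⟩
    by_cases ho : #{x // U x = o} ≤ thetaU
    · left
      have hne : o ≠ o' := by
        rintro rfl
        exact absurd ho (not_le.2 ho')
      have hmem : ∀ x : {x // U x = o}, x.1 ∈ (⋃ o, D o : Set P) := fun x =>
        Set.mem_iUnion.2 ⟨o, hD3 o ho x.1 x.2⟩
      refine Cardinal.mk_congr (Equiv.ofBijective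
        (fun x : {x // U x = o} => (⟨j ⟨x.1, hmem x⟩, (hV _).trans x.2⟩ : {y // V y = o})) ⟨?_, ?_⟩)
      · intro x y hxy
        have h1 : j ⟨x.1, hmem x⟩ = j ⟨y.1, hmem y⟩ := congrArg Subtype.val hxy
        have h2 := j.injective h1
        exact Subtype.ext (congrArg (fun d => d.1) h2)
      · rintro ⟨y, hy⟩
        obtain ⟨d, rfl⟩ := hV' y (by rw [hy]; exact hne)
        refine ⟨⟨d.1, (hV d).symm.trans hy⟩, ?_⟩
        rfl
    · right
      have ho2 := not_le.1 ho
      refine ⟨ho2, (hD4 o ho2).trans_le ?_⟩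
      refine Cardinal.mk_le_of_injective (f := fun x : D o =>
        (⟨j ⟨x.1, Set.mem_iUnion.2 ⟨o, x.2⟩⟩, (hV _).trans (hD1 o x.1 x.2)⟩ : {y // V y = o})) ?_
      intro x y hxy
      have h2 := j.injective (congrArg Subtype.val hxy)
      exact Subtype.ext (congrArg (fun d => d.1) h2)

/-- Two colourings with similar fibres. -/
def Match {X Y : Type u} {W : Type} (a : X → W) (b : Y → W) : Prop :=
  ∀ w, Similar #{x // a x = w} #{y // b y = w}

theorem Match.symm {X Y : Type u} {W : Type} {a : X → W} {b : Y → W} (h : Match a b) :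
    Match b a := fun w => (h w).symm

theorem Match.exists_right {X Y : Type u} {W : Type} {a : X → W} {b : Y → W} (h : Match a b)
    (x : X) : ∃ y, b y = a x := by
  have h0 : #{x' // a x' = a x} ≠ 0 := by
    rw [Cardinal.mk_ne_zero_iff]
    exact ⟨⟨x, rfl⟩⟩
  have h1 : #{y // b y = a x} ≠ 0 := by
    rcases h (a x) with h | h
    · rwa [← h]
    · exact (lt_of_le_of_lt zero_le h.2).ne'
  rw [Cardinal.mk_ne_zero_iff] at h1
  obtain ⟨y, hy⟩ := h1
  exact ⟨y, hy⟩

theorem Match.exists_left {X Y : Type u} {W : Type} {a : X → W} {b : Y → W} (h : Match a b)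
    (y : Y) : ∃ x, a x = b y := h.symm.exists_right y

theorem Match.extend {X Y : Type u} {W : Type} {a : X → W} {b : Y → W} (h : Match a b)
    (U : X → Opens BB) :
    ∃ V : Y → Opens BB, Match (fun x => (a x, U x)) (fun y => (b y, V y)) := by
  have := fun w => extend_fiber (h w) (fun x => U x.1)
  choose V hV using this
  refine ⟨fun y => V (b y) ⟨y, rfl⟩, ?_⟩
  rintro ⟨w, o⟩
  have e1 : {x : X // (a x, U x) = (w, o)} ≃ {x : {x // a x = w} // U x.1 = o} :=
    { toFun := fun x => ⟨⟨x.1, congrArg Prod.fst x.2⟩, congrArg Prod.snd x.2⟩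
      invFun := fun x => ⟨x.1.1, Prod.ext x.1.2 x.2⟩
      left_inv := fun _ => rfl
      right_inv := fun _ => rfl }
  have key : ∀ (y : Y) (hy : b y = w), V (b y) ⟨y, rfl⟩ = V w ⟨y, hy⟩ := by
    rintro y rfl; rfl
  have e2 : {y : Y // (b y, V (b y) ⟨y, rfl⟩) = (w, o)} ≃ {y : {y // b y = w} // V w y = o} :=
    { toFun := fun y => ⟨⟨y.1, congrArg Prod.fst y.2⟩, by
        rw [← key y.1 (congrArg Prod.fst y.2)]
        exact congrArg Prod.snd y.2⟩
      invFun := fun y => ⟨y.1.1, Prod.ext y.1.2 ((key y.1.1 y.1.2).trans y.2)⟩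
      left_inv := fun _ => rfl
      right_inv := fun _ => rfl }
  rw [Cardinal.mk_congr e1, Cardinal.mk_congr e2]
  exact hV w o

section
variable {X Y : Type u} {W : Type}

/-- The correspondence attached to two matching colourings. -/
def Corr (a : X → W) (b : Y → W) (S : Fam X) (T : Fam Y) : Prop :=
  ∃ c : W → Opens BB, S.val = c ∘ a ∧ T.val = c ∘ b

theorem Corr.symm {a : X → W} {b : Y → W} {S : Fam X} {T : Fam Y} (h : Corr a b S T) :
    Corr b a T S := by
  obtain ⟨c, h1, h2⟩ := h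
  exact ⟨c, h2, h1⟩

theorem cov_comp {a : X → W} {b : Y → W} (h : Match a b) {c : W → Opens BB}
    (hc : Cov (c ∘ a)) : Cov (c ∘ b) := by
  intro p
  obtain ⟨x, g, hg⟩ := hc p
  obtain ⟨y, hy⟩ := h.exists_right x
  refine ⟨y, g, ?_⟩
  change sh g p ∈ c (b y)
  rw [hy]
  exact hg

theorem eq_comp {a : X → W} {b : Y → W} (h : Match a b) {c c' : W → Opens BB}
    (hc : c ∘ a = c' ∘ a) : c ∘ b = c' ∘ b := by
  funext y
  obtain ⟨x, hx⟩ := h.exists_left y
  have := congrFun hc x
  simp only [Function.comp_apply] at this ⊢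
  rwa [hx] at this

theorem Corr.sup {a : X → W} {b : Y → W} {S S' : Fam X} {T T' : Fam Y}
    (h : Corr a b S T) (h' : Corr a b S' T') : Corr a b (S ⊔ S') (T ⊔ T') := by
  obtain ⟨c, h1, h2⟩ := h
  obtain ⟨c', h1', h2'⟩ := h'
  refine ⟨c ⊔ c', ?_, ?_⟩
  · rw [Fam.sup_val, h1, h1']; rfl
  · rw [Fam.sup_val, h2, h2']; rfl

theorem Corr.inf {a : X → W} {b : Y → W} (hab : Match a b) {S S' : Fam X} {T T' : Fam Y}
    (h : Corr a b S T) (h' : Corr a b S' T') : Corr a b (S ⊓ S') (T ⊓ T') := by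
  obtain ⟨c, h1, h2⟩ := h
  obtain ⟨c', h1', h2'⟩ := h'
  have e1 : S.val ⊓ S'.val = (c ⊓ c') ∘ a := by rw [h1, h1']; rfl
  have e2 : T.val ⊓ T'.val = (c ⊓ c') ∘ b := by rw [h2, h2']; rfl
  by_cases hc : Cov (S.val ⊓ S'.val)
  · have hc' : Cov (T.val ⊓ T'.val) := by
      rw [e2]; rw [e1] at hc; exact cov_comp hab hc
    exact ⟨c ⊓ c', by rw [Fam.inf_val_of_cov hc, e1], by rw [Fam.inf_val_of_cov hc', e2]⟩
  · have hc' : ¬ Cov (T.val ⊓ T'.val) := by
      intro h3
      rw [e2] at h3
      rw [e1] at hc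
      exact hc (cov_comp hab.symm h3)
    exact ⟨⊥, by rw [Fam.inf_val_of_not_cov hc]; rfl, by rw [Fam.inf_val_of_not_cov hc']; rfl⟩

theorem Corr.eq {a : X → W} {b : Y → W} (hab : Match a b) {S S' : Fam X} {T T' : Fam Y}
    (h : Corr a b S T) (h' : Corr a b S' T') (hS : S = S') : T = T' := by
  obtain ⟨c, h1, h2⟩ := h
  obtain ⟨c', h1', h2'⟩ := h'
  apply Fam.ext
  rw [h2, h2']
  apply eq_comp hab
  rw [← h1, ← h1', hS]

theorem Corr.extend {a : X → W} {b : Y → W} (hab : Match a b) (S : Fam X) :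
    ∃ (b' : Y → W × Opens BB) (T : Fam Y), Match (fun x => (a x, S.val x)) b' ∧
      Corr (fun x => (a x, S.val x)) b' S T ∧
      ∀ S' T', Corr a b S' T' → Corr (fun x => (a x, S.val x)) b' S' T' := by
  obtain ⟨V, hV⟩ := hab.extend S.val
  refine ⟨_, ⟨V, ?_⟩, hV, ⟨Prod.snd, rfl, rfl⟩, ?_⟩
  · rcases S.prop with h | h
    · left
      have : (Prod.snd : W × Opens BB → Opens BB) ∘ (fun x => (a x, S.val x)) =
          (fun _ => ⊥) ∘ (fun x => (a x, S.val x)) := h
      exact eq_comp hV this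
    · right
      have : Cov ((Prod.snd : W × Opens BB → Opens BB) ∘ (fun x => (a x, S.val x))) := h
      exact cov_comp hV this
  · rintro S' T' ⟨c, h1, h2⟩
    exact ⟨c ∘ Prod.fst, h1, h2⟩

end

/-- Positions of the game from which the second player wins. -/
def Game {X Y : Type u} {n : ℕ} (v : Fin n → Fam X) (v' : Fin n → Fam Y) : Prop :=
  ∃ (W : Type) (a : X → W) (b : Y → W), Match a b ∧ ∀ i, Corr a b (v i) (v' i)

theorem Game.symm {X Y : Type u} {n : ℕ} {v : Fin n → Fam X} {v' : Fin n → Fam Y}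
    (h : Game v v') : Game v' v := by
  obtain ⟨W, a, b, hab, h⟩ := h
  exact ⟨W, b, a, hab.symm, fun i => (h i).symm⟩

theorem Game.forth {X Y : Type u} {n : ℕ} {v : Fin n → Fam X} {v' : Fin n → Fam Y}
    (h : Game v v') (S : Fam X) : ∃ T : Fam Y, Game (Fin.snoc v S : Fin (n + 1) → Fam X)
      (Fin.snoc v' T : Fin (n + 1) → Fam Y) := by
  obtain ⟨W, a, b, hab, h⟩ := h
  obtain ⟨b', T, hm, hST, hold⟩ := Corr.extend hab S
  refine ⟨T, W × Opens BB, _, b', hm, fun i => ?_⟩
  refine Fin.lastCases ?_ (fun j => ?_) i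
  · simpa using hST
  · simpa using hold _ _ (h j)

theorem Game.term {X Y : Type u} {n : ℕ} {v : Fin n → Fam X} {v' : Fin n → Fam Y}
    {W : Type} {a : X → W} {b : Y → W} (hab : Match a b) (h : ∀ i, Corr a b (v i) (v' i))
    (t : latLang.Term (Empty ⊕ Fin n)) :
    Corr a b (t.realize (Sum.elim (default : Empty → Fam X) v))
      (t.realize (Sum.elim (default : Empty → Fam Y) v')) := by
  induction t with
  | var i =>
    rcases i with i | i
    · exact i.elim
    · exact h i
  | func c ts ih =>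
    rw [FirstOrder.Language.Term.realize_func, FirstOrder.Language.Term.realize_func]
    cases c
    · exact Corr.sup (ih 0) (ih 1)
    · exact Corr.inf hab (ih 0) (ih 1)

theorem Game.realize {X Y : Type u} {n : ℕ} (φ : latLang.BoundedFormula Empty n) :
    ∀ (v : Fin n → Fam X) (v' : Fin n → Fam Y), Game v v' →
      (φ.Realize (default : Empty → Fam X) v ↔ φ.Realize (default : Empty → Fam Y) v') := by
  induction φ with
  | falsum => exact fun _ _ _ => Iff.rfl
  | equal t₁ t₂ =>
    rintro v v' ⟨W, a, b, hab, h⟩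
    have h1 := Game.term hab h t₁
    have h2 := Game.term hab h t₂
    exact ⟨fun he => Corr.eq hab h1 h2 he, fun he => Corr.eq hab.symm h1.symm h2.symm he⟩
  | rel r _ => exact r.elim
  | imp _ _ ih1 ih2 =>
    intro v v' h
    exact imp_congr (ih1 v v' h) (ih2 v v' h)
  | all _ ih =>
    intro v v' h
    constructor
    · intro hall T
      obtain ⟨S, hS⟩ := h.symm.forth T
      exact (ih _ _ hS.symm).1 (hall S)
    · intro hall S
      obtain ⟨T, hT⟩ := h.forth S
      exact (ih _ _ hT).2 (hall T)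

/-- Above the threshold the lattices are elementarily equivalent. -/
theorem fam_equiv {X Y : Type u} (hX : thetaU < #X) (hY : thetaU < #Y) :
    latLang.ElementarilyEquivalent (Fam X) (Fam Y) := by
  rw [FirstOrder.Language.elementarilyEquivalent_iff]
  intro φ
  refine Game.realize φ _ _ ⟨Unit, fun _ => (), fun _ => (), ?_, fun i => i.elim0⟩
  intro w
  right
  have e : ∀ Z : Type u, #{z : Z // () = w} = #Z := fun Z =>
    Cardinal.mk_congr (Equiv.subtypeUnivEquiv fun _ => rfl)
  rw [e, e]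
  exact ⟨hX, hY⟩

end Pinus
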