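import Pool.Agent.Helper672.Pinus.Sig

/-!
# Terms with the same value in the concrete algebra are equal in the variety
-/

open FirstOrder

universe u

namespace Pinus

/-- The generators of the concrete algebra. -/
def gen {X : Type u} (x : X) : LC X := LocallyConstant.const _ (x, 0)

theorem shiftC_neg (k : ℤ × ℤ) (p : ℤ × ℤ → Bool) : shiftC k (shiftC (-k) p) = p := by
  funext g
  unfold shiftC
  congr 1
  abel

section
variable {X : Type u} {A : Type u} {f : A → A → A} {s s' t t' : A → A}
  (h : IsAlg f s s' t t') (v : X → A)

/-- An element of the concrete algebra is represented by `a`. -/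
def Rep (z : LC X) (a : A) : Prop :=
  ∀ p : BB, h.th p.1 a (h.act (z p).2 (v (z p).1))

theorem Rep.unique {z : LC X} {a b : A} (ha : Rep h v z a) (hb : Rep h v z b) : a = b := by
  apply h.th_sep
  intro p hp
  exact h.th_trans (ha ⟨p, hp⟩) (h.th_symm (hb ⟨p, hp⟩))

theorem Rep.gen (x : X) : Rep h v (gen x) (v x) := by
  intro p
  change h.th p.1 (v x) (h.act 0 (v x))
  rw [h.act_zero]
  exact h.th_refl _ _

theorem Rep.act {z : LC X} {a : A} (ha : Rep h v z a) (k : ℤ × ℤ) :
    Rep h v (lact k z) (h.act k a) := by
  intro p
  have h1 := h.th_act k (ha (sh (-k) p))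
  have h2 : shiftC k (sh (-k) p).1 = p.1 := shiftC_neg k p.1
  rw [h2, ← h.act_add] at h1
  rw [lact_apply, add_comm]
  exact h1

theorem Rep.ite {z w : LC X} {a b : A} (ha : Rep h v z a) (hb : Rep h v w b) :
    Rep h v (lite 0 z w) (f a b) := by
  intro p
  have e0 : f a b = h.fg 0 a b := by rw [h.fg_zero]
  rw [e0, lite_apply]
  cases e : p.1 0
  · exact h.th_trans (h.th_right 0 e a b) (hb p)
  · exact h.th_trans (h.th_left 0 e a b) (ha p)

end

section
variable {A : Type u} [pinSig.Structure A]

theorem funMap_f (x : Fin 2 → A) :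
    FirstOrder.Language.Structure.funMap (L := pinSig) Symb.f x = opF (x 0) (x 1) := by
  unfold opF
  congr 1
  funext i
  fin_cases i <;> rfl

theorem funMap_s (x : Fin 1 → A) :
    FirstOrder.Language.Structure.funMap (L := pinSig) Symb.s x = opS (x 0) := by
  unfold opS
  congr 1
  funext i
  fin_cases i <;> rfl

theorem funMap_s' (x : Fin 1 → A) :
    FirstOrder.Language.Structure.funMap (L := pinSig) Symb.s' x = opS' (x 0) := by
  unfold opS'
  congr 1
  funext i
  fin_cases i <;> rfl

theorem funMap_t (x : Fin 1 → A) :
    FirstOrder.Language.Structure.funMap (L := pinSig) Symb.t x = opT (x 0) := by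
  unfold opT
  congr 1
  funext i
  fin_cases i <;> rfl

theorem funMap_t' (x : Fin 1 → A) :
    FirstOrder.Language.Structure.funMap (L := pinSig) Symb.t' x = opT' (x 0) := by
  unfold opT'
  congr 1
  funext i
  fin_cases i <;> rfl

end

theorem rep_term {X A : Type u} [pinSig.Structure A] (hA : InVariety pinVar A) (v : X → A)
    (t : pinSig.Term X) :
    Rep (isAlg_of_inVariety hA) v (t.realize gen) (t.realize v) := by
  have h := isAlg_of_inVariety hA
  induction t with
  | var x => exact Rep.gen h v x
  | func c ts ih =>
    rw [FirstOrder.Language.Term.realize_func, FirstOrder.Language.Term.realize_func]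
    cases c
    · rw [funMap_f, funMap_f]
      exact Rep.ite h v (ih 0) (ih 1)
    · rw [funMap_s, funMap_s]
      have := Rep.act h v (ih 0) (1, 0)
      rw [h.act_s] at this
      exact this
    · rw [funMap_s', funMap_s']
      have := Rep.act h v (ih 0) (-(1, 0))
      rw [h.act_neg, h.act_s_symm] at this
      exact this
    · rw [funMap_t, funMap_t]
      have := Rep.act h v (ih 0) (0, 1)
      rw [h.act_t] at this
      exact this
    · rw [funMap_t', funMap_t']
      have := Rep.act h v (ih 0) (-(0, 1))
      rw [h.act_neg, h.act_t_symm] at this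
      exact this

theorem eq_of_realize_gen {X : Type u} {t₁ t₂ : pinSig.Term X}
    (he : t₁.realize (gen (X := X)) = t₂.realize gen) {A : Type u} [pinSig.Structure A]
    (hA : InVariety pinVar A) (v : X → A) : t₁.realize v = t₂.realize v := by
  have h1 := rep_term hA v t₁
  have h2 := rep_term hA v t₂
  rw [he] at h1
  exact Rep.unique _ v h1 h2

end Pinus
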