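import Pool.Agent.Helper672.Pinus.SubLat

/-!
# The free algebra is the concrete algebra
-/

open FirstOrder TopologicalSpace

universe u

namespace Pinus

variable {X : Type u}

noncomputable instance freeStructure (X : Type u) : pinSig.Structure (FreeAlg pinVar X) :=
  freeAlgStructure pinVar X

/-- Evaluation of the free algebra in the concrete algebra. -/
noncomputable def evF (X : Type u) : FreeAlg pinVar X → LC X :=
  Quotient.lift (s := freeSetoid pinVar X) (fun t : pinSig.Term X => t.realize gen)
    (fun _ _ h => h (LC X) (lc_inVariety X) gen)

theorem evF_mk (t : pinSig.Term X) :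
    evF X (Quotient.mk (freeSetoid pinVar X) t) = t.realize gen := rfl

theorem evF_injective : Function.Injective (evF X) := by
  intro a b
  refine Quotient.inductionOn₂ a b (fun s t h => ?_)
  apply Quotient.sound
  intro A _ hA v
  exact eq_of_realize_gen h hA v

theorem evF_funMap {n : ℕ} (c : pinSig.Functions n) (x : Fin n → FreeAlg pinVar X) :
    evF X (FirstOrder.Language.Structure.funMap c x) =
      FirstOrder.Language.Structure.funMap c (fun i => evF X (x i)) := by
  obtain ⟨y, hy⟩ : ∃ y : Fin n → pinSig.Term X,
      x = fun i => Quotient.mk (freeSetoid pinVar X) (y i) :=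
    ⟨fun i => Quotient.out (x i), funext fun i => (Quotient.out_eq (x i)).symm⟩
  subst hy
  have h1 := @FirstOrder.Language.funMap_quotient_mk' pinSig (pinSig.Term X)
    (freeSetoid pinVar X) (freePrestructure pinVar X) n c y
  have h2 : (FirstOrder.Language.Structure.funMap c
      (fun i => (Quotient.mk (freeSetoid pinVar X) (y i) : FreeAlg pinVar X)) :
        FreeAlg pinVar X) =
      Quotient.mk (freeSetoid pinVar X) (FirstOrder.Language.Term.func c y) := h1
  rw [h2, evF_mk, FirstOrder.Language.Term.realize_func]
  rfl

/-- Evaluation as a homomorphism. -/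
noncomputable def evHom (X : Type u) : FreeAlg pinVar X →[pinSig] LC X where
  toFun := evF X
  map_fun' := fun c x => evF_funMap c x
  map_rel' := fun r _ => r.elim

theorem evF_surjective : Function.Surjective (evF X) := by
  intro z
  let S : pinSig.Substructure (LC X) := (evHom X).range
  have hgen : ∀ x, gen x ∈ (S : Set (LC X)) := by
    intro x
    refine ⟨Quotient.mk (freeSetoid pinVar X) (FirstOrder.Language.Term.var x), ?_⟩
    rfl
  have hne : (S : Set (LC X)).Nonempty := ⟨_, hgen (z zeroB).1⟩
  have hz : z ∈ SU (US (S : Set (LC X))) := fun p => ⟨gen (z p).1, hgen _, rfl⟩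
  rw [SU_US (closedSet_of_substructure S) hne] at hz
  obtain ⟨a, ha⟩ := hz
  exact ⟨a, ha⟩

/-- The lattices of subalgebras of the free algebra and of the concrete algebra. -/
noncomputable def freeSubIso (X : Type u) :
    pinSig.Substructure (FreeAlg pinVar X) ≃o pinSig.Substructure (LC X) where
  toFun S := S.map (evHom X)
  invFun S := S.comap (evHom X)
  left_inv S := by
    apply SetLike.coe_injective
    rw [FirstOrder.Language.Substructure.coe_comap, FirstOrder.Language.Substructure.coe_map]
    exact Set.preimage_image_eq _ evF_injective
  right_inv S := by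
    apply SetLike.coe_injective
    rw [FirstOrder.Language.Substructure.coe_map, FirstOrder.Language.Substructure.coe_comap]
    exact Set.image_preimage_eq _ evF_surjective
  map_rel_iff' := by
    intro S T
    change S.map (evHom X) ≤ T.map (evHom X) ↔ S ≤ T
    have h1 : (evF X '' (S : Set (FreeAlg pinVar X)) ⊆ evF X '' (T : Set (FreeAlg pinVar X))) ↔
        (S : Set (FreeAlg pinVar X)) ⊆ (T : Set (FreeAlg pinVar X)) :=
      Set.image_subset_image_iff evF_injective
    exact h1

/-- The lattice of subalgebras of the free algebra. -/
noncomputable def mainIso (X : Type u) : pinSig.Substructure (FreeAlg pinVar X) ≃o Fam X :=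
  (freeSubIso X).trans (subIso X)

/-- Isomorphic lattices are elementarily equivalent. -/
theorem elem_of_iso {M N : Type u} [Lattice M] [Lattice N] (e : M ≃o N) :
    latLang.ElementarilyEquivalent M N := by
  let E : latLang.Equiv M N :=
    { toEquiv := e.toEquiv
      map_fun' := by
        intro n c x
        cases c
        · exact e.map_sup _ _
        · exact e.map_inf _ _
      map_rel' := fun r _ => r.elim }
  exact FirstOrder.Language.StrongHomClass.elementarilyEquivalent E

end Pinus
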