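import Pool.Agent.Helper672.Pinus.Periodic
import Pool.Agent.Helper672.Pinus.Cards

/-!
# The relation of the variety is none of the three relations
-/

open Cardinal

universe u

namespace Pinus

theorem equivS_iff_fam (κ μ : InfCard.{u}) :
    equivS pinVar κ μ ↔ latLang.ElementarilyEquivalent (Fam κ.1.out) (Fam μ.1.out) := by
  have h1 : latLang.ElementarilyEquivalent
      (pinSig.Substructure (FreeAlg pinVar κ.1.out)) (Fam κ.1.out) :=
    elem_of_iso (mainIso κ.1.out)
  have h2 : latLang.ElementarilyEquivalent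
      (pinSig.Substructure (FreeAlg pinVar μ.1.out)) (Fam μ.1.out) :=
    elem_of_iso (mainIso μ.1.out)
  constructor
  · intro h
    have h' : latLang.ElementarilyEquivalent
      (pinSig.Substructure (FreeAlg pinVar κ.1.out))
      (pinSig.Substructure (FreeAlg pinVar μ.1.out)) := h
    exact (h1.symm.trans h').trans h2
  · intro h
    have h' : latLang.ElementarilyEquivalent
      (pinSig.Substructure (FreeAlg pinVar κ.1.out))
      (pinSig.Substructure (FreeAlg pinVar μ.1.out)) := (h1.trans h).trans h2.symm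
    exact h'

theorem equivS_large {κ μ : InfCard.{u}} (hκ : thetaU < κ.1) (hμ : thetaU < μ.1) :
    equivS pinVar κ μ := by
  rw [equivS_iff_fam]
  exact fam_equiv (by rwa [Cardinal.mk_out]) (by rwa [Cardinal.mk_out])

theorem not_equivS_aleph0 {μ : InfCard.{u}} (hμ : thetaU < μ.1) :
    ¬ equivS pinVar ⟨ℵ₀, le_rfl⟩ μ := by
  intro h
  rw [equivS_iff_fam] at h
  have h1 := psi_of_equiv h
  have e : Nonempty ((ℵ₀ : Cardinal.{u}).out ≃ ℕ) := by
    have : Cardinal.lift.{0} #((ℵ₀ : Cardinal.{u}).out) = Cardinal.lift.{u} #ℕ := by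
      rw [Cardinal.mk_out, Cardinal.mk_nat, Cardinal.lift_aleph0, Cardinal.lift_aleph0]
    exact Cardinal.lift_mk_eq'.1 this
  obtain ⟨e⟩ := e
  exact psi_false (by rwa [Cardinal.mk_out]) (h1.1 (psi_countable e))

theorem main : equivS.{u} pinVar ≠ nabla ∧ equivS.{u} pinVar ≠ equiv2p ∧
    equivS.{u} pinVar ≠ equiv2 := by
  obtain ⟨κ, μ, hκ, hμ, h2, h2p⟩ := exists_separated.{u} thetaU aleph0_le_thetaU
  refine ⟨fun h => ?_, fun h => ?_, fun h => ?_⟩
  · have h1 : nabla (⟨ℵ₀, le_rfl⟩ : InfCard.{u}) κ := trivial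
    rw [← h] at h1
    exact not_equivS_aleph0 hκ h1
  · have h1 := equivS_large hκ hμ
    rw [h] at h1
    exact h2p h1
  · have h1 := equivS_large hκ hμ
    rw [h] at h1
    exact h2 h1

end Pinus
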