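import Pool.Agent.Helper672.Pinus.Theta

/-!
# The concrete algebra of locally constant maps
-/

universe u

namespace Pinus

/-- The Ledrappier space. -/
abbrev BB : Type := {p : ℤ × ℤ → Bool // Led p}

theorem isClosed_led : IsClosed {p : ℤ × ℤ → Bool | Led p} := by
  have : {p : ℤ × ℤ → Bool | Led p} =
      ⋂ g : ℤ × ℤ, {p | p (g + (0, 1)) = xor (p g) (p (g + (1, 0)))} := by
    ext p
    simp only [Led, Set.mem_ofPred_eq, Set.mem_iInter]
  rw [this]
  refine isClosed_iInter fun g => ?_
  refine isClosed_eq (continuous_apply _) ?_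
  have h1 : Continuous (fun b : Bool × Bool => xor b.1 b.2) := continuous_of_discreteTopology
  have h2 : Continuous (fun p : ℤ × ℤ → Bool => (p g, p (g + (1, 0)))) :=
    (continuous_apply g).prodMk (continuous_apply _)
  exact h1.comp h2

instance : CompactSpace BB := isCompact_iff_compactSpace.1 isClosed_led.isCompact

/-- The zero configuration. -/
def zeroB : BB := ⟨fun _ => false, fun _ => rfl⟩

instance : Nonempty BB := ⟨zeroB⟩

/-- The shift. -/
def sh (k : ℤ × ℤ) (p : BB) : BB := ⟨shiftC k p.1, p.2.shift k⟩

theorem sh_add (a b : ℤ × ℤ) (p : BB) : sh (a + b) p = sh a (sh b p) := by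
  apply Subtype.ext
  funext g
  change p.1 _ = p.1 _
  congr 1
  abel

theorem sh_zero (p : BB) : sh 0 p = p := by
  apply Subtype.ext
  funext g
  change p.1 _ = p.1 _
  rw [sub_zero]

theorem sh_neg_cancel (a : ℤ × ℤ) (p : BB) : sh (-a) (sh a p) = p := by
  rw [← sh_add, neg_add_cancel, sh_zero]

theorem sh_cancel_neg (a : ℤ × ℤ) (p : BB) : sh a (sh (-a) p) = p := by
  rw [← sh_add, add_neg_cancel, sh_zero]

theorem continuous_sh (k : ℤ × ℤ) : Continuous (sh k) := by
  refine Continuous.subtype_mk ?_ _
  refine continuous_pi fun g => ?_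
  exact (continuous_apply (g - k)).comp continuous_subtype_val

/-- The carrier of the concrete free algebra. -/
abbrev LC (X : Type u) : Type u := LocallyConstant BB (X × (ℤ × ℤ))

variable {X : Type u}

/-- translation in the algebra -/
def lact (k : ℤ × ℤ) (z : LC X) : LC X :=
  ⟨fun p => ((z (sh (-k) p)).1, (z (sh (-k) p)).2 + k), by
    have h1 : IsLocallyConstant (fun p => z (sh (-k) p)) :=
      z.isLocallyConstant.comp_continuous (continuous_sh (-k))
    exact h1.comp (fun y => (y.1, y.2 + k))⟩

/-- the choice operation attached to a position -/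
def lite (g : ℤ × ℤ) (z w : LC X) : LC X :=
  ⟨fun p => if p.1 g then z p else w p, by
    have h0 : IsLocallyConstant (fun p : BB => p.1 g) :=
      (IsLocallyConstant.iff_continuous _).2
        ((continuous_apply g).comp continuous_subtype_val)
    have h1 := h0.comp₂ z.isLocallyConstant (fun b y => (b, y))
    exact h1.comp₂ w.isLocallyConstant (fun by' y => if by'.1 then by'.2 else y)⟩

theorem lact_apply (k : ℤ × ℤ) (z : LC X) (p : BB) :
    lact k z p = ((z (sh (-k) p)).1, (z (sh (-k) p)).2 + k) := rfl

theorem lite_apply (g : ℤ × ℤ) (z w : LC X) (p : BB) :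
    lite g z w p = if p.1 g then z p else w p := rfl

theorem lact_lact (a b : ℤ × ℤ) (z : LC X) : lact a (lact b z) = lact (a + b) z := by
  ext p
  · simp only [lact_apply]
    rw [← sh_add, neg_add, add_comm (-a)]
  · simp only [lact_apply]
    rw [← sh_add, neg_add, add_comm (-a), add_comm a b, ← add_assoc]
  · simp only [lact_apply]
    rw [← sh_add, neg_add, add_comm (-a), add_comm a b, ← add_assoc]

theorem lact_zero (z : LC X) : lact 0 z = z := by
  ext p <;> simp [lact_apply, sh_zero]

theorem lact_lite (k g : ℤ × ℤ) (z w : LC X) :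
    lact k (lite g z w) = lite (k + g) (lact k z) (lact k w) := by
  apply LocallyConstant.ext
  intro p
  simp only [lact_apply, lite_apply]
  have : (sh (-k) p).1 g = p.1 (k + g) := by
    change p.1 (g - -k) = _
    congr 1
    abel
  rw [this]
  split_ifs <;> rfl

/-- The concrete algebra satisfies the identities. -/
theorem lc_isAlg (X : Type u) : IsAlg (A := LC X) (lite 0) (lact (1, 0)) (lact (-(1, 0)))
    (lact (0, 1)) (lact (-(0, 1))) where
  ss' := fun x => by rw [lact_lact, add_neg_cancel, lact_zero]
  s's := fun x => by rw [lact_lact, neg_add_cancel, lact_zero]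
  tt' := fun x => by rw [lact_lact, add_neg_cancel, lact_zero]
  t't := fun x => by rw [lact_lact, neg_add_cancel, lact_zero]
  st := fun x => by rw [lact_lact, lact_lact, add_comm]
  band := by
    refine ⟨fun x => ?_, fun x y z => ?_, fun x y z => ?_⟩ <;>
    · apply LocallyConstant.ext
      intro p
      simp only [lite_apply]
      split_ifs <;> rfl
  comm := by
    intro x y z w
    simp only [lact_lite, lact_lact, add_neg_cancel, lact_zero]
    apply LocallyConstant.ext
    intro p
    simp only [lite_apply, add_zero, add_neg_cancel]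
    split_ifs <;> rfl
  led := by
    intro x y
    simp only [lact_lite, lact_lact, add_neg_cancel, lact_zero]
    apply LocallyConstant.ext
    intro p
    simp only [lite_apply]
    have := p.2 0
    simp only [zero_add, add_zero] at this ⊢
    rw [this]
    cases p.1 0 <;> cases p.1 (1, 0) <;> rfl

end Pinus
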