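import Pool.Agent.Helper672.Pinus.PsiTrue

/-!
# Periodic points converging to zero
-/

open FirstOrder TopologicalSpace Cardinal Filter Topology

universe u

namespace Pinus

/-- The bit of an element of `ZMod 2`. -/
def bit (a : ZMod 2) : Bool := decide (a = 1)

theorem bit_add (a b : ZMod 2) : bit (a + b) = xor (bit a) (bit b) := by
  revert a b
  decide

theorem bit_zero : bit 0 = false := by decide

theorem bit_of_ne {a : ZMod 2} (h : a ≠ 0) : bit a = true := by
  revert h
  revert a
  decide

theorem exists_periodic (F : Finset (ℤ × ℤ)) :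
    ∃ q : BB, q ≠ zeroB ∧ (Orb q).Finite ∧ ∀ g ∈ F, q.1 g = false := by
  classical
  haveI : Fact (Nat.Prime 2) := ⟨Nat.prime_two⟩
  let n := F.card + 2
  have hn : n ≠ 0 := by omega
  let L := GaloisField 2 n
  haveI : Fintype L := Fintype.ofFinite L
  have hrank : Module.finrank (ZMod 2) L = n := GaloisField.finrank 2 hn
  have hcard : Nat.card L = 2 ^ n := GaloisField.card 2 n hn
  obtain ⟨al, hal⟩ := IsCyclic.exists_generator (α := Lˣ)
  -- the generator is not one
  have hal1 : (1 : L) + al ≠ 0 := by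
    intro h
    have h1 : (al : L) = 1 := by
      have h2 : (al : L) = -1 := by
        rw [eq_neg_iff_add_eq_zero, add_comm]
        exact h
      rw [h2]
      exact CharTwo.neg_eq (1 : L)
    have h2 : al = 1 := Units.ext h1
    have h3 : ∀ x : Lˣ, x = 1 := by
      intro x
      obtain ⟨k, hk⟩ := Subgroup.mem_zpowers_iff.1 (hal x)
      rw [← hk, h2, one_zpow]
    have h4 : ∀ x : L, x = 0 ∨ x = 1 := by
      intro x
      by_cases hx : x = 0
      · exact Or.inl hx
      · right
        have := h3 (Units.mk0 x hx)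
        have h5 := congrArg (fun y : Lˣ => (y : L)) this
        simpa using h5
    have h5 : Nat.card L ≤ 2 := by
      have hsub : (Finset.univ : Finset L) ⊆ {0, 1} := by
        intro x _
        rcases h4 x with h | h <;> simp [h]
      rw [Nat.card_eq_fintype_card]
      calc Fintype.card L = (Finset.univ : Finset L).card := rfl
        _ ≤ ({0, 1} : Finset L).card := Finset.card_le_card hsub
        _ ≤ 2 := Finset.card_le_two
    rw [hcard] at h5
    have h6 : 2 ^ 2 ≤ 2 ^ n := Nat.pow_le_pow_right (by norm_num) (by omega)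
    omega
  let be : Lˣ := Units.mk0 _ hal1
  have hbe : (be : L) = 1 + al := rfl
  let mon : ℤ × ℤ → L := fun g => ((al ^ g.1 * be ^ g.2 : Lˣ) : L)
  have hmon_add : ∀ g k, mon (g + k) = mon g * mon k := by
    intro g k
    change ((al ^ (g.1 + k.1) * be ^ (g.2 + k.2) : Lˣ) : L) =
      ((al ^ g.1 * be ^ g.2 : Lˣ) : L) * ((al ^ k.1 * be ^ k.2 : Lˣ) : L)
    rw [← Units.val_mul, zpow_add, zpow_add]
    congr 1
    exact mul_mul_mul_comm _ _ _ _
  have hmon_s : mon (1, 0) = al := by simp [mon]
  have hmon_t : mon (0, 1) = 1 + al := by simp [mon, hbe]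
  -- the functional
  have hlt : Submodule.span (ZMod 2) ((F.image mon : Finset L) : Set L) < ⊤ := by
    rw [lt_top_iff_ne_top]
    intro htop
    have h1 : Module.finrank (ZMod 2) (Submodule.span (ZMod 2) ((F.image mon : Finset L) : Set L)) ≤
        (F.image mon).card := finrank_span_finset_le_card _
    rw [htop, finrank_top, hrank] at h1
    have h2 : (F.image mon).card ≤ F.card := Finset.card_image_le
    omega
  obtain ⟨lam, hlam, hker⟩ := Submodule.exists_le_ker_of_lt_top _ hlt
  have hlamF : ∀ g ∈ F, lam (mon g) = 0 := by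
    intro g hg
    have : mon g ∈ LinearMap.ker lam :=
      hker (Submodule.subset_span (by simpa using ⟨g.1, g.2, hg, rfl⟩))
    exact this
  let q0 : ℤ × ℤ → Bool := fun g => bit (lam (mon g))
  have hled : Led q0 := by
    intro g
    change bit (lam (mon (g + (0, 1)))) = xor (bit (lam (mon g))) (bit (lam (mon (g + (1, 0)))))
    rw [← bit_add, ← map_add, hmon_add, hmon_add, hmon_s, hmon_t, mul_add, mul_one]
  refine ⟨⟨q0, hled⟩, ?_, ?_, ?_⟩
  · intro h
    have h0 : ∀ g, bit (lam (mon g)) = false := fun g => congrFun (congrArg Subtype.val h) g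
    apply hlam
    ext x
    by_cases hx : x = 0
    · rw [hx, map_zero, map_zero]
    · obtain ⟨k, hk⟩ := Subgroup.mem_zpowers_iff.1 (hal (Units.mk0 x hx))
      have hmx : mon (k, 0) = x := by
        have := congrArg (fun y : Lˣ => (y : L)) hk
        simpa [mon] using this
      by_contra hne
      have := h0 (k, 0)
      rw [hmx, bit_of_ne hne] at this
      exact absurd this (by decide)
  · have hsub : (Subtype.val '' Orb (⟨q0, hled⟩ : BB)) ⊆
        Set.range (fun c : L => (fun g => bit (lam (mon g * c)) : ℤ × ℤ → Bool)) := by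
      rintro _ ⟨_, ⟨k, rfl⟩, rfl⟩
      refine ⟨mon (-k), ?_⟩
      funext g
      change bit (lam (mon g * mon (-k))) = bit (lam (mon (g - k)))
      rw [← hmon_add, sub_eq_add_neg]
    have hfin := (Set.finite_range _).subset hsub
    exact hfin.of_finite_image Subtype.val_injective.injOn
  · intro g hg
    change bit (lam (mon g)) = false
    rw [hlamF g hg, bit_zero]

theorem exists_periodic_nhds (U : Set BB) (hU : IsOpen U) (h0 : zeroB ∈ U) :
    ∃ q ∈ U, q ≠ zeroB ∧ (Orb q).Finite := by
  obtain ⟨O', hO', rfl⟩ := isOpen_induced_iff.1 hU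
  obtain ⟨I, u, hu, hI⟩ := isOpen_pi_iff.1 hO' _ h0
  obtain ⟨q, hq1, hq2, hq3⟩ := exists_periodic I
  refine ⟨q, hI ?_, hq1, hq2⟩
  intro g hg
  rw [hq3 g hg]
  exact (hu g hg).2

theorem zero_notMem_orb {q : BB} (hq : q ≠ zeroB) : zeroB ∉ Orb q := by
  rintro ⟨g, hg⟩
  apply hq
  have := congrArg (sh (-g)) hg
  rw [sh_neg_cancel] at this
  rw [this]
  rfl

theorem orb_symm {p q : BB} (h : q ∈ Orb p) : p ∈ Orb q := by
  obtain ⟨g, rfl⟩ := h
  exact ⟨-g, sh_neg_cancel g p⟩

theorem exists_goodSeq : ∃ p : ℕ → BB, GoodSeq p := by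
  classical
  haveI : FirstCountableTopology BB :=
    (Topology.IsInducing.subtypeVal (t := Led)).firstCountableTopology
  -- a basis of neighbourhoods
  obtain ⟨V, hV⟩ := (𝓝 (zeroB)).exists_antitone_basis
  -- the step
  have step : ∀ (n : ℕ) (l : Finset BB), ∃ q : BB, q ∈ V n ∧ q ≠ zeroB ∧ (Orb q).Finite ∧
      ((∀ r ∈ l, r ≠ zeroB ∧ (Orb r).Finite) → ∀ r ∈ l, q ∉ Orb r) := by
    intro n l
    by_cases hl : ∀ r ∈ l, r ≠ zeroB ∧ (Orb r).Finite
    · have hW : IsClosed (⋃ r ∈ l, Orb r) :=
        (l.finite_toSet.biUnion fun r hr => (hl r hr).2).isClosed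
      have h0W : zeroB ∉ ⋃ r ∈ l, Orb r := by
        simp only [Set.mem_iUnion, not_exists]
        exact fun r hr => zero_notMem_orb (hl r hr).1
      have hmem : interior (V n) ∩ (⋃ r ∈ l, Orb r)ᶜ ∈ 𝓝 zeroB :=
        Filter.inter_mem (interior_mem_nhds.2 (hV.1.mem_of_mem trivial))
          (hW.isOpen_compl.mem_nhds h0W)
      obtain ⟨q, hq, hq1, hq2⟩ := exists_periodic_nhds _
        (isOpen_interior.inter hW.isOpen_compl) (mem_of_mem_nhds hmem)
      refine ⟨q, interior_subset hq.1, hq1, hq2, fun _ r hr hqr => hq.2 ?_⟩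
      simp only [Set.mem_iUnion]
      exact ⟨r, hr, hqr⟩
    · obtain ⟨q, hq, hq1, hq2⟩ := exists_periodic_nhds _ isOpen_interior
        (mem_of_mem_nhds (interior_mem_nhds.2 (hV.1.mem_of_mem (i := n) trivial)))
      exact ⟨q, interior_subset hq, hq1, hq2, fun h => absurd h hl⟩
  choose f hf1 hf2 hf3 hf4 using step
  -- the finite sets of the points chosen so far
  let A : ℕ → Finset BB := fun n => Nat.rec ∅ (fun k l => insert (f k l) l) n
  have hA : ∀ n, A (n + 1) = insert (f n (A n)) (A n) := fun n => rfl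
  have hAgood : ∀ n, ∀ r ∈ A n, r ≠ zeroB ∧ (Orb r).Finite := by
    intro n
    induction n with
    | zero => intro r hr; exact absurd hr (by simp [A])
    | succ n ih =>
      intro r hr
      rw [hA] at hr
      rcases Finset.mem_insert.1 hr with rfl | hr
      · exact ⟨hf2 _ _, hf3 _ _⟩
      · exact ih r hr
  have hmem : ∀ i n, i < n → f i (A i) ∈ A n := by
    intro i n
    induction n with
    | zero => intro h; omega
    | succ n ih =>
      intro h
      rw [hA]
      rcases Nat.lt_succ_iff_lt_or_eq.1 h with h | rfl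
      · exact Finset.mem_insert_of_mem (ih h)
      · exact Finset.mem_insert_self _ _
  have hlt : ∀ i j, i < j → f j (A j) ∉ Orb (f i (A i)) := fun i j hij =>
    hf4 j (A j) (hAgood j) _ (hmem i j hij)
  refine ⟨fun n => f n (A n), fun i => hf3 _ _, fun i => zero_notMem_orb (hf2 _ _), ?_, ?_⟩
  · intro i j hij
    rcases lt_trichotomy i j with h | h | h
    · exact absurd hij (hlt i j h)
    · exact h.symm
    · exact absurd (orb_symm hij) (hlt j i h)
  · rw [hV.1.tendsto_right_iff]
    intro n _
    filter_upwards [eventually_ge_atTop n] with k hk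
    exact hV.2 hk (hf1 k (A k))

theorem psi_countable {X : Type u} (e : X ≃ ℕ) : Psi (Fam X) := by
  obtain ⟨p, hp⟩ := exists_goodSeq
  exact psi_true e hp

end Pinus
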