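import Pool.Agent.Helper672.Pinus.Defs

/-!
# The distinguishing sentence
-/

open FirstOrder

universe u

namespace Pinus

section predicates
variable {M : Type u} [Lattice M]

/-- `x` is the bottom. -/
def Bt (x : M) : Prop := ∀ y, x ≤ y

/-- `x` is the top. -/
def Tp (x : M) : Prop := ∀ y, y ≤ x

/-- `e` is a coatom. -/
def Coat (e : M) : Prop := ¬ Tp e ∧ ∀ y, e ≤ y → y ≤ e ∨ Tp y

/-- The relation meaning `same orbit`. -/
def Sim (e e' : M) : Prop := Coat e ∧ Coat e' ∧ ∀ T, ¬ Bt T → Bt (T ⊓ e) → T ≤ e' ∨ e = e'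

/-- The relation meaning `clopen part`. -/
def Part (S T : M) : Prop := S ≤ T ∧ ∃ T', S ≤ T' ∧ T ⊓ T' = S ∧ Tp (T ⊔ T')

/-- The comparison of fibres. -/
def Le (S e0 e e' : M) : Prop :=
  ∃ T T', Part S T ∧ T ≤ e ∧ Part S T' ∧ T' ≤ e' ∧ (∀ e2, Sim e0 e2 → T' ≤ e2 → e2 = e') ∧
    ∀ e1, Coat e1 → T ≤ e1 → ∃ e1', Sim e1 e1' ∧ T' ≤ e1'

end predicates

/-- The distinguishing property. -/
def Psi (M : Type u) [Lattice M] : Prop :=
  ∃ e0 S : M, Coat e0 ∧ ¬ Bt S ∧ Bt (S ⊓ e0) ∧
    ∀ e e', Sim e0 e → Sim e0 e' → S ≤ e → S ≤ e' → e ≠ e' → ¬ Le S e0 e e'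

/-- Uniformly definable properties. -/
def UDef (α : Type) (P : ∀ (M : Type u) [Lattice M], (α → M) → Prop) : Prop :=
  ∃ φ : latLang.Formula α, ∀ (M : Type u) [Lattice M] (v : α → M), φ.Realize v ↔ P M v

namespace UDef

variable {α : Type}

theorem imp {P Q : ∀ (M : Type u) [Lattice M], (α → M) → Prop} (hP : UDef α P)
    (hQ : UDef α Q) : UDef α (fun M _ v => P M v → Q M v) := by
  obtain ⟨φ, hφ⟩ := hP
  obtain ⟨ψ, hψ⟩ := hQ
  refine ⟨φ.imp ψ, fun M _ v => ?_⟩
  rw [FirstOrder.Language.Formula.realize_imp, hφ, hψ]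

theorem not {P : ∀ (M : Type u) [Lattice M], (α → M) → Prop} (hP : UDef α P) :
    UDef α (fun M _ v => ¬ P M v) := by
  obtain ⟨φ, hφ⟩ := hP
  refine ⟨φ.not, fun M _ v => ?_⟩
  rw [FirstOrder.Language.Formula.realize_not, hφ]

theorem and {P Q : ∀ (M : Type u) [Lattice M], (α → M) → Prop} (hP : UDef α P)
    (hQ : UDef α Q) : UDef α (fun M _ v => P M v ∧ Q M v) := by
  obtain ⟨φ, hφ⟩ := hP
  obtain ⟨ψ, hψ⟩ := hQ
  refine ⟨φ ⊓ ψ, fun M _ v => ?_⟩
  rw [FirstOrder.Language.Formula.realize_inf, hφ, hψ]

theorem or {P Q : ∀ (M : Type u) [Lattice M], (α → M) → Prop} (hP : UDef α P)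
    (hQ : UDef α Q) : UDef α (fun M _ v => P M v ∨ Q M v) := by
  obtain ⟨φ, hφ⟩ := hP
  obtain ⟨ψ, hψ⟩ := hQ
  refine ⟨φ ⊔ ψ, fun M _ v => ?_⟩
  rw [FirstOrder.Language.Formula.realize_sup, hφ, hψ]

theorem all {Q : ∀ (M : Type u) [Lattice M], (Option α → M) → Prop}
    (hQ : UDef (Option α) Q) :
    UDef α (fun M _ v => ∀ x : M, Q M (fun o => o.elim x v)) := by
  obtain ⟨φ, hφ⟩ := hQ
  refine ⟨FirstOrder.Language.Formula.iAlls Unit
    (φ.relabel (fun o : Option α => o.elim (Sum.inr ()) Sum.inl)), fun M _ v => ?_⟩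
  rw [FirstOrder.Language.Formula.realize_iAlls]
  have key : ∀ x : M, (fun a => Sum.elim v (fun _ : Unit => x) a) ∘
      (fun o : Option α => o.elim (Sum.inr ()) Sum.inl) = (fun o => o.elim x v) := by
    intro x
    funext o
    cases o <;> rfl
  constructor
  · intro h x
    have := h (fun _ => x)
    rw [FirstOrder.Language.Formula.realize_relabel, hφ, key] at this
    exact this
  · intro h i
    rw [FirstOrder.Language.Formula.realize_relabel, hφ]
    have := h (i ())
    rw [← key] at this
    exact this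

theorem ex {Q : ∀ (M : Type u) [Lattice M], (Option α → M) → Prop}
    (hQ : UDef (Option α) Q) :
    UDef α (fun M _ v => ∃ x : M, Q M (fun o => o.elim x v)) := by
  obtain ⟨φ, hφ⟩ := hQ.not.all.not
  refine ⟨φ, fun M _ v => ?_⟩
  rw [hφ]
  push Not
  rfl

/-- terms -/
abbrev var (i : α) : latLang.Term (α ⊕ Fin 0) := FirstOrder.Language.Term.var (Sum.inl i)

theorem le (i j : α) : UDef.{u} α (fun M _ v => v i ≤ v j) := by
  refine ⟨FirstOrder.Language.Term.equal
    (FirstOrder.Language.Term.func (L := latLang) (LatSymb.join : latLang.Functions 2)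
      ![FirstOrder.Language.Term.var i, FirstOrder.Language.Term.var j])
    (FirstOrder.Language.Term.var j), fun M _ v => ?_⟩
  rw [FirstOrder.Language.Formula.realize_equal]
  exact sup_eq_right

theorem eq (i j : α) : UDef.{u} α (fun M _ v => v i = v j) := by
  refine ⟨FirstOrder.Language.Term.equal (FirstOrder.Language.Term.var i)
    (FirstOrder.Language.Term.var j), fun M _ v => ?_⟩
  rw [FirstOrder.Language.Formula.realize_equal]
  rfl

theorem supEq (i j k : α) : UDef.{u} α (fun M _ v => v i ⊔ v j = v k) := by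
  refine ⟨FirstOrder.Language.Term.equal
    (FirstOrder.Language.Term.func (L := latLang) (LatSymb.join : latLang.Functions 2)
      ![FirstOrder.Language.Term.var i, FirstOrder.Language.Term.var j])
    (FirstOrder.Language.Term.var k), fun M _ v => ?_⟩
  rw [FirstOrder.Language.Formula.realize_equal]
  rfl

theorem infEq (i j k : α) : UDef.{u} α (fun M _ v => v i ⊓ v j = v k) := by
  refine ⟨FirstOrder.Language.Term.equal
    (FirstOrder.Language.Term.func (L := latLang) (LatSymb.meet : latLang.Functions 2)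
      ![FirstOrder.Language.Term.var i, FirstOrder.Language.Term.var j])
    (FirstOrder.Language.Term.var k), fun M _ v => ?_⟩
  rw [FirstOrder.Language.Formula.realize_equal]
  rfl

theorem bt (i : α) : UDef.{u} α (fun M _ v => Bt (v i)) :=
  (UDef.le (some i) none).all

theorem tp (i : α) : UDef.{u} α (fun M _ v => Tp (v i)) :=
  (UDef.le none (some i)).all

theorem coat (i : α) : UDef.{u} α (fun M _ v => Coat (v i)) :=
  (UDef.tp i).not.and
    (((UDef.le (some i) none).imp ((UDef.le none (some i)).or (UDef.tp none))).all)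

theorem btInf (i j : α) : UDef.{u} α (fun M _ v => Bt (v i ⊓ v j)) := by
  obtain ⟨φ, hφ⟩ := ((UDef.infEq (some i) (some j) none).imp (UDef.bt none)).all
  refine ⟨φ, fun M _ v => (hφ M v).trans ?_⟩
  constructor
  · intro h
    exact h _ rfl
  · intro h x hx
    have : v i ⊓ v j = x := hx
    rw [← this]
    exact h

theorem tpSup (i j : α) : UDef.{u} α (fun M _ v => Tp (v i ⊔ v j)) := by
  obtain ⟨φ, hφ⟩ := ((UDef.supEq (some i) (some j) none).imp (UDef.tp none)).all
  refine ⟨φ, fun M _ v => (hφ M v).trans ?_⟩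
  constructor
  · intro h
    exact h _ rfl
  · intro h x hx
    have : v i ⊔ v j = x := hx
    rw [← this]
    exact h

theorem sim (i j : α) : UDef.{u} α (fun M _ v => Sim (v i) (v j)) :=
  (UDef.coat i).and ((UDef.coat j).and
    (((UDef.bt none).not.imp ((UDef.btInf none (some i)).imp
      ((UDef.le none (some j)).or (UDef.eq (some i) (some j))))).all))

theorem part (i j : α) : UDef.{u} α (fun M _ v => Part (v i) (v j)) :=
  (UDef.le i j).and
    (((UDef.le (some i) none).and ((UDef.infEq (some j) none (some i)).and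
      (UDef.tpSup (some j) none))).ex)

theorem le4 (S e0 e e' : α) : UDef.{u} α (fun M _ v => Le (v S) (v e0) (v e) (v e')) :=
  ((((UDef.part (some (some S)) (some none)).and
    ((UDef.le (some none) (some (some e))).and
    ((UDef.part (some (some S)) none).and
    ((UDef.le none (some (some e'))).and
    (((UDef.sim (some (some (some e0))) none).imp
      ((UDef.le (some none) none).imp (UDef.eq none (some (some (some e')))))).all.and
    (((UDef.coat none).imp ((UDef.le (some (some none)) none).imp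
      (((UDef.sim (some none) none).and (UDef.le (some (some none)) none)).ex))).all)))))).ex).ex)

theorem psi : UDef.{u} Empty (fun M _ _ => Psi M) := by
  have h4 := (UDef.le4.{u} (α := Option (Option (Option (Option Empty)))) (some (some none))
    (some (some (some none))) (some none) none).not
  have h3 := (UDef.eq.{u} (α := Option (Option (Option (Option Empty)))) (some none) none).not.imp h4
  have h2 := (UDef.le.{u} (some (some none)) none).imp h3
  have h1 := (UDef.le.{u} (some (some none)) (some none)).imp h2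
  have h0 := (UDef.sim.{u} (some (some (some none))) none).imp h1
  have h := (UDef.sim.{u} (some (some (some none))) (some none)).imp h0
  exact ((UDef.coat (some none)).and ((UDef.bt none).not.and
    ((UDef.btInf none (some none)).and h.all.all))).ex.ex

end UDef

theorem exists_psi_sentence : ∃ φ : latLang.Sentence, ∀ (M : Type u) [Lattice M],
    φ.Realize M ↔ Psi M := by
  obtain ⟨φ, hφ⟩ := UDef.psi.{u}
  exact ⟨φ, fun M _ => hφ M _⟩

/-- Elementarily equivalent lattices agree on the distinguishing property. -/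
theorem psi_of_equiv {M N : Type u} [Lattice M] [Lattice N]
    (h : latLang.ElementarilyEquivalent M N) : Psi M ↔ Psi N := by
  obtain ⟨φ, hφ⟩ := exists_psi_sentence.{u}
  rw [← hφ, ← hφ]
  exact FirstOrder.Language.elementarilyEquivalent_iff.1 h φ

end Pinus
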