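import Pool.Agent.Helper672.Pinus.PsiFam

/-!
# The distinguishing property fails above the threshold
-/

open FirstOrder TopologicalSpace Cardinal

universe u

namespace Pinus

section
variable {X : Type u} [Nontrivial X]

open Classical in
/-- A clopen part living in one coordinate. -/
noncomputable def partF (S : Fam X) (x : X) (O : Set BB) (hO : IsClopen O) : Fam X :=
  ⟨fun z => if z = x then ⟨(S.val x : Set BB) ∪ Oᶜ, (S.val x).isOpen.union hO.1.isOpen_compl⟩
    else ⊤, by
    right
    intro q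
    obtain ⟨y, hy⟩ := exists_ne x
    refine ⟨y, 0, ?_⟩
    beta_reduce
    rw [if_neg hy]
    trivial⟩

theorem mem_partF {S : Fam X} {x z : X} {O : Set BB} {hO : IsClopen O} {q : BB} :
    q ∈ (partF S x O hO).val z ↔ (z = x → (q ∈ S.val x ∨ q ∉ O)) := by
  classical
  unfold partF
  by_cases h : z = x
  · simp only [if_pos h, h, true_imp_iff]
    rfl
  · simp only [if_neg h, h, false_imp_iff, iff_true]
    trivial

open Classical in
/-- The complementary part. -/
noncomputable def coPart (S : Fam X) (hS : Cov S.val) (x : X) (O : Set BB) (hO : IsClopen O) :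
    Fam X :=
  ⟨fun z => if z = x then ⟨(S.val x : Set BB) ∪ O, (S.val x).isOpen.union hO.2⟩
    else S.val z, by
    right
    intro q
    obtain ⟨z, g, hg⟩ := hS q
    refine ⟨z, g, ?_⟩
    beta_reduce
    split_ifs with h
    · left
      rw [← h]
      exact hg
    · exact hg⟩

theorem mem_coPart {S : Fam X} {hS : Cov S.val} {x z : X} {O : Set BB} {hO : IsClopen O} {q : BB} :
    q ∈ (coPart S hS x O hO).val z ↔ (q ∈ S.val z ∨ (z = x ∧ q ∈ O)) := by
  classical
  unfold coPart
  by_cases h : z = x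
  · simp only [if_pos h, h, true_and]
    rfl
  · simp only [h, false_and, or_false, if_false]

theorem part_partF {S : Fam X} (hS : Cov S.val) (x : X) (O : Set BB) (hO : IsClopen O) :
    Part S (partF S x O hO) := by
  have e : (partF S x O hO).val ⊓ (coPart S hS x O hO).val = S.val := by
    funext z
    apply Opens.ext
    ext q
    change (q ∈ (partF S x O hO).val z ∧ q ∈ (coPart S hS x O hO).val z) ↔ q ∈ S.val z
    rw [mem_partF, mem_coPart]
    constructor
    · rintro ⟨h1, h2 | ⟨h2, h3⟩⟩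
      · exact h2
      · rcases h1 h2 with h4 | h4
        · rw [h2]; exact h4
        · exact absurd h3 h4
    · intro h
      exact ⟨fun hz => Or.inl (by rw [← hz]; exact h), Or.inl h⟩
  refine ⟨?_, coPart S hS x O hO, ?_, ?_, ?_⟩
  · rw [Fam.le_iff]
    intro z q hq
    exact mem_partF.2 fun hz => Or.inl (by rw [← hz]; exact hq)
  · rw [Fam.le_iff]
    intro z q hq
    exact mem_coPart.2 (Or.inl hq)
  · apply Fam.ext
    rw [Fam.inf_val_of_cov (by rw [e]; exact hS), e]
  · rw [tp_iff, Fam.sup_val]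
    funext z
    apply Opens.ext
    apply Set.eq_univ_of_forall
    intro q
    change q ∈ (partF S x O hO).val z ∨ q ∈ (coPart S hS x O hO).val z
    rw [mem_partF, mem_coPart]
    by_cases hz : z = x
    · by_cases hq : q ∈ O
      · exact Or.inr (Or.inr ⟨hz, hq⟩)
      · exact Or.inl fun _ => Or.inr hq
    · exact Or.inl fun h => absurd h hz

end

theorem psi_false {X : Type u} (hX : thetaU < #X) : ¬ Psi (Fam X) := by
  haveI : Infinite X := Cardinal.infinite_iff.2 (aleph0_le_thetaU.trans hX.le)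
  rintro ⟨e0, S, h0, hS, hb, hall⟩
  obtain ⟨x0, p0, rfl⟩ := coat_iff.1 h0
  rw [bt_iff, not_not] at hS
  rw [btInf_iff hS] at hb
  obtain ⟨o, ho⟩ := exists_big_fiber hX S.val
  have hinf : {x : X | S.val x = o}.Infinite := by
    rw [← Set.infinite_coe_iff, Cardinal.infinite_iff]
    exact aleph0_le_thetaU.trans ho.le
  have hinf1 := hinf.diff (Set.finite_singleton x0)
  obtain ⟨x, ⟨hx, hx0⟩⟩ := hinf1.nonempty
  obtain ⟨y, ⟨hy, hy0⟩, hyx⟩ := (hinf1.diff (Set.finite_singleton x)).nonempty
  have hxy : x ≠ y := fun h => hyx h.symm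
  have hSxy : S.val x = S.val y := by
    have h1 : S.val x = o := hx
    have h2 : S.val y = o := hy
    rw [h1, h2]
  have hx0' : x0 ≠ x := fun h => hx0 h.symm
  have hy0' : x0 ≠ y := fun h => hy0 h.symm
  have hpx : p0 ∉ S.val x := by
    intro h
    exact hx0 (hb x 0 (by rwa [sh_zero])).1
  have hpy : p0 ∉ S.val y := by rwa [← hSxy]
  obtain ⟨O, hO, hpO, hOS⟩ := compact_exists_isClopen_in_isOpen (S.val x0).isOpen
    (hb.mem hS : p0 ∈ S.val x0)
  have horb : ∀ r ∈ Orb p0, r ∈ O → r = p0 := by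
    rintro _ ⟨g, rfl⟩ hr
    exact (hb x0 g (hOS hr)).2
  obtain ⟨hc1, hc2⟩ := orb_closed_of_K hS hb
  refine hall (pt x p0) (pt y p0) (sim_of_ne hx0' p0) (sim_of_ne hy0' p0) (le_pt.2 hpx)
    (le_pt.2 hpy) (fun h => hxy (pt_inj h).1) ?_
  refine ⟨partF S x O hO, partF S y O hO, part_partF hS x O hO, ?_, part_partF hS y O hO, ?_,
    ?_, ?_⟩
  · rw [le_pt, mem_partF]
    intro h
    rcases h rfl with h | h
    exacts [hpx h, h hpO]
  · rw [le_pt, mem_partF]
    intro h
    rcases h rfl with h | h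
    exacts [hpy h, h hpO]
  · intro e2 hsim hle
    obtain ⟨z, r, rfl⟩ := coat_iff.1 hsim.2.1
    rw [le_pt, mem_partF] at hle
    push Not at hle
    obtain ⟨rfl, -, hrO⟩ := hle
    have := horb r (sim_orb hc1 hc2 hsim) hrO
    rw [this]
  · intro e1 hcoat hle
    obtain ⟨z, r, rfl⟩ := coat_iff.1 hcoat
    rw [le_pt, mem_partF] at hle
    push Not at hle
    obtain ⟨rfl, hrS, hrO⟩ := hle
    refine ⟨pt y r, sim_of_ne hxy r, ?_⟩
    rw [le_pt, mem_partF]
    intro h
    rcases h rfl with h | h
    · rw [← hSxy] at h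
      exact hrS h
    · exact h hrO

end Pinus
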