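import Pool.Agent.Helper672.Pinus.EF
import Pool.Agent.Helper672.Pinus.Psi

/-!
# The distinguishing property in the lattices of families
-/

open FirstOrder TopologicalSpace Cardinal

universe u

namespace Pinus

/-- The orbit of a configuration. -/
def Orb (p : BB) : Set BB := {q | ∃ g, sh g p = q}

theorem mem_orb_self (p : BB) : p ∈ Orb p := ⟨0, sh_zero p⟩

theorem sh_mem_orb {p q : BB} (h : q ∈ Orb p) (g : ℤ × ℤ) : sh g q ∈ Orb p := by
  obtain ⟨k, rfl⟩ := h
  exact ⟨g + k, sh_add g k p⟩

theorem orb_of_sh {p q : BB} {g : ℤ × ℤ} (h : sh g q ∈ Orb p) : q ∈ Orb p := by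
  have := sh_mem_orb h (-g)
  rwa [sh_neg_cancel] at this

section
variable {X : Type u} [Nontrivial X]

open Classical in
/-- The coatom attached to a point. -/
noncomputable def pt (x : X) (p : BB) : Fam X :=
  ⟨Function.update ⊤ x ⟨{p}ᶜ, isOpen_compl_singleton⟩, by
    right
    intro q
    obtain ⟨y, hy⟩ := exists_ne x
    refine ⟨y, 0, ?_⟩
    rw [Function.update_of_ne hy]
    trivial⟩

theorem mem_pt {x y : X} {p q : BB} : q ∈ (pt x p).val y ↔ ¬ (y = x ∧ q = p) := by
  classical
  unfold pt
  simp only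
  by_cases h : y = x
  · subst h
    rw [Function.update_self]
    simp only [true_and]
    rfl
  · rw [Function.update_of_ne h]
    simp only [h, false_and, not_false_eq_true, iff_true]
    trivial

theorem le_pt {S : Fam X} {x : X} {p : BB} : S ≤ pt x p ↔ p ∉ S.val x := by
  constructor
  · intro h hp
    exact mem_pt.1 (h x hp) ⟨rfl, rfl⟩
  · intro h
    rw [Fam.le_iff]
    intro y q hq
    refine mem_pt.2 ?_
    rintro ⟨rfl, rfl⟩
    exact h hq

theorem pt_inj {x y : X} {p q : BB} (h : pt x p = pt y q) : x = y ∧ p = q := by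
  have h1 : p ∉ (pt x p).val x := fun h => mem_pt.1 h ⟨rfl, rfl⟩
  rw [h] at h1
  by_contra hcon
  exact h1 (mem_pt.2 hcon)

/-- The top family. -/
def topF (X : Type u) [Nonempty X] : Fam X :=
  ⟨⊤, Or.inr fun p => ⟨Classical.arbitrary X, 0, trivial⟩⟩

theorem tp_iff {S : Fam X} : Tp S ↔ S.val = ⊤ := by
  constructor
  · intro h
    exact top_le_iff.1 (h (topF X))
  · intro h T
    rw [Fam.le_iff, h]
    exact le_top

/-- The bottom family. -/
def botF (X : Type u) : Fam X := ⟨⊥, Or.inl rfl⟩

theorem bt_iff {S : Fam X} : Bt S ↔ ¬ Cov S.val := by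
  constructor
  · intro h hc
    obtain ⟨x, g, hg⟩ := hc zeroB
    exact h (botF X) x hg
  · intro h T
    rcases S.prop with h1 | h1
    · rw [Fam.le_iff, h1]
      exact bot_le
    · exact absurd h1 h

theorem coat_pt (x : X) (p : BB) : Coat (pt x p) := by
  constructor
  · rw [tp_iff]
    intro h
    have : p ∈ (pt x p).val x := by rw [h]; trivial
    exact mem_pt.1 this ⟨rfl, rfl⟩
  · intro y hy
    by_cases hp : p ∈ y.val x
    · right
      rw [tp_iff]
      funext z
      apply Opens.ext
      apply Set.eq_univ_of_forall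
      intro q
      by_cases h : z = x ∧ q = p
      · obtain ⟨rfl, rfl⟩ := h
        exact hp
      · exact hy z (mem_pt.2 h)
    · left
      exact le_pt.2 hp

theorem coat_iff {e : Fam X} : Coat e ↔ ∃ x p, e = pt x p := by
  constructor
  · rintro ⟨h1, h2⟩
    rw [tp_iff] at h1
    have : ∃ x p, p ∉ e.val x := by
      by_contra hcon
      push Not at hcon
      apply h1
      funext z
      apply Opens.ext
      exact Set.eq_univ_of_forall (hcon z)
    obtain ⟨x, p, hp⟩ := this
    refine ⟨x, p, le_antisymm (le_pt.2 hp) ?_⟩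
    rcases h2 _ (le_pt.2 hp) with h | h
    · exact h
    · exact absurd h (coat_pt x p).1
  · rintro ⟨x, p, rfl⟩
    exact coat_pt x p

/-- The points of the orbit of `p` belong to `T` only at `(x, p)`. -/
def K (x : X) (p : BB) (T : Fam X) : Prop :=
  ∀ z g, sh g p ∈ T.val z → z = x ∧ sh g p = p

theorem btInf_iff {T : Fam X} (hT : Cov T.val) {x : X} {p : BB} :
    Bt (T ⊓ pt x p) ↔ K x p T := by
  rw [bt_iff]
  constructor
  · intro h
    have h1 : ¬ Cov (T.val ⊓ (pt x p).val) := by
      intro hc
      rw [Fam.inf_val_of_cov hc] at h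
      exact h hc
    unfold Cov at h1
    push Not at h1
    obtain ⟨q, hq⟩ := h1
    obtain ⟨z, g, hg⟩ := hT q
    have h2 : ∀ z g, sh g q ∈ T.val z → z = x ∧ sh g q = p := by
      intro z g hg
      by_contra hcon
      exact hq z g ⟨hg, mem_pt.2 hcon⟩
    have h3 := h2 z g hg
    intro z' g' hg'
    rw [← h3.2, ← sh_add] at hg'
    have h4 := h2 z' _ hg'
    refine ⟨h4.1, ?_⟩
    conv_lhs => rw [← h3.2, ← sh_add, h4.2]
  · intro h hc
    by_cases hc' : Cov (T.val ⊓ (pt x p).val)
    · obtain ⟨z, g, hg⟩ := hc' p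
      have h1 := h z g hg.1
      exact mem_pt.1 hg.2 h1
    · rw [Fam.inf_val_of_not_cov hc'] at hc
      obtain ⟨_, _, h3⟩ := hc zeroB
      exact h3

theorem K.mem {x : X} {p : BB} {T : Fam X} (h : K x p T) (hT : Cov T.val) : p ∈ T.val x := by
  obtain ⟨z, g, hg⟩ := hT p
  obtain ⟨h1, h2⟩ := h z g hg
  rwa [h1, h2] at hg

theorem sim_of_ne {x y : X} (hxy : x ≠ y) (p : BB) : Sim (pt x p) (pt y p) := by
  refine ⟨coat_pt _ _, coat_pt _ _, fun T hT hb => Or.inl ?_⟩
  rw [bt_iff, not_not] at hT
  rw [btInf_iff hT] at hb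
  rw [le_pt]
  intro hp
  have := hb y 0 (by rwa [sh_zero])
  exact hxy this.1.symm

open Classical in
/-- The largest element whose meet with the coatom is the bottom. -/
noncomputable def bigK (x : X) (p : BB) (h1 : IsClosed (Orb p)) (h2 : IsClosed (Orb p \ {p})) :
    Fam X :=
  ⟨fun z => if z = x then ⟨(Orb p \ {p})ᶜ, h2.isOpen_compl⟩ else ⟨(Orb p)ᶜ, h1.isOpen_compl⟩, by
    right
    intro q
    by_cases hq : q ∈ Orb p
    · obtain ⟨g, rfl⟩ := hq
      refine ⟨x, -g, ?_⟩
      beta_reduce
      rw [if_pos rfl, sh_neg_cancel]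
      intro h
      exact h.2 rfl
    · refine ⟨x, 0, ?_⟩
      beta_reduce
      rw [if_pos rfl, sh_zero]
      intro h
      exact hq h.1⟩

theorem sim_orb {x y : X} {p q : BB} (h1 : IsClosed (Orb p)) (h2 : IsClosed (Orb p \ {p}))
    (h : Sim (pt x p) (pt y q)) : q ∈ Orb p := by
  have hc : Cov (bigK x p h1 h2).val := by
    rcases (bigK x p h1 h2).prop with h0 | h0
    · exfalso
      have : p ∈ (bigK x p h1 h2).val x := by
        unfold bigK
        simp only [if_true]
        intro h
        exact h.2 rfl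
      rw [h0] at this
      exact this
    · exact h0
  have hK : K x p (bigK x p h1 h2) := by
    intro z g hg
    by_cases hz : z = x
    · refine ⟨hz, ?_⟩
      by_contra hne
      unfold bigK at hg
      simp only [if_pos hz] at hg
      exact hg ⟨⟨g, rfl⟩, hne⟩
    · unfold bigK at hg
      simp only [if_neg hz] at hg
      exact absurd ⟨g, rfl⟩ hg
  rcases h.2.2 (bigK x p h1 h2) (by rw [bt_iff, not_not]; exact hc)
    ((btInf_iff hc).2 hK) with h3 | h3
  · rw [le_pt] at h3
    by_contra hq
    apply h3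
    unfold bigK
    by_cases hz : y = x
    · simp only [if_pos hz]
      intro h
      exact hq h.1
    · simp only [if_neg hz]
      exact hq
  · rw [← (pt_inj h3).2]
    exact mem_orb_self p

/-- If the condition can be met then the orbit is closed and its points are isolated. -/
theorem orb_closed_of_K {x : X} {p : BB} {S : Fam X} (hS : Cov S.val) (hK : K x p S) :
    IsClosed (Orb p) ∧ IsClosed (Orb p \ {p}) := by
  have hA : ∀ z, closure (Orb p \ {p}) ⊆ ((S.val z : Set BB))ᶜ := by
    intro z
    apply closure_minimal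
    · rintro q ⟨⟨g, rfl⟩, hne⟩ hq
      exact hne (hK z g hq).2
    · exact (S.val z).isOpen.isClosed_compl
  have hB : closure (Orb p) ⊆ closure (Orb p \ {p}) ∪ {p} := by
    have : Orb p ⊆ (Orb p \ {p}) ∪ {p} := by
      intro q hq
      by_cases h : q = p
      · right; exact h
      · left; exact ⟨hq, h⟩
    refine (closure_mono this).trans ?_
    rw [closure_union, isClosed_singleton.closure_eq]
  have hinv : ∀ g q, q ∈ closure (Orb p) → sh g q ∈ closure (Orb p) := by
    intro g q hq
    have h1 : sh g '' closure (Orb p) ⊆ closure (sh g '' Orb p) :=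
      image_closure_subset_closure_image (continuous_sh g)
    have h2 : sh g '' Orb p ⊆ Orb p := by
      rintro _ ⟨r, hr, rfl⟩
      exact sh_mem_orb hr g
    exact closure_mono h2 (h1 ⟨q, hq, rfl⟩)
  have hO : IsClosed (Orb p) := by
    rw [← closure_subset_iff_isClosed]
    intro q hq
    by_contra hqO
    obtain ⟨z, g, hg⟩ := hS q
    rcases hB (hinv g q hq) with h1 | h1
    · exact hA z h1 hg
    · apply hqO
      apply orb_of_sh (g := g)
      rw [h1]
      exact mem_orb_self p
  refine ⟨hO, ?_⟩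
  rw [← closure_subset_iff_isClosed]
  intro q hq
  refine ⟨?_, ?_⟩
  · have := closure_mono (Set.diff_subset : Orb p \ {p} ⊆ Orb p) hq
    rwa [hO.closure_eq] at this
  · rintro rfl
    exact hA x hq (hK.mem hS)

end

end Pinus
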