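import Pool.Agent.Helper672.Pinus.PsiFalse

/-!
# The distinguishing property holds for countable rank
-/

open FirstOrder TopologicalSpace Cardinal Filter Topology

universe u

namespace Pinus

/-- A sequence of points with finite, pairwise different orbits, converging to zero. -/
structure GoodSeq (p : ℕ → BB) : Prop where
  fin : ∀ i, (Orb (p i)).Finite
  ne : ∀ i, zeroB ∉ Orb (p i)
  dist : ∀ i j, p j ∈ Orb (p i) → j = i
  tends : Tendsto p atTop (𝓝 zeroB)

theorem orb_zero {q : BB} (h : q ∈ Orb zeroB) : q = zeroB := by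
  obtain ⟨g, rfl⟩ := h
  rfl

/-- The closed sets used. -/
def Cset (p : ℕ → BB) (n : ℕ) : Set BB := insert zeroB (Set.range fun k => p (Nat.pair n k))

theorem pair_tendsto (n : ℕ) : Tendsto (fun k => Nat.pair n k) atTop atTop := by
  apply Function.Injective.nat_tendsto_atTop
  intro a b h
  exact (Nat.pair_eq_pair.1 h).2

theorem isClosed_Cset {p : ℕ → BB} (hp : GoodSeq p) (n : ℕ) : IsClosed (Cset p n) :=
  ((hp.tends.comp (pair_tendsto n)).isCompact_insert_range).isClosed

theorem psi_true {X : Type u} (e : X ≃ ℕ) {p : ℕ → BB} (hp : GoodSeq p) : Psi (Fam X) := by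
  classical
  haveI : Nontrivial X := e.nontrivial
  let x0 : X := e.symm 0
  have hx0 : ∀ z : X, e z = 0 → z = x0 := fun z hz => by
    change z = e.symm 0
    rw [← hz, e.symm_apply_apply]
  have hcov : Cov (fun z : X => if e z = 0 then (⊤ : Opens BB)
      else ⟨(Cset p (e z))ᶜ, (isClosed_Cset hp _).isOpen_compl⟩) := by
    intro q
    refine ⟨x0, 0, ?_⟩
    beta_reduce
    rw [if_pos (e.apply_symm_apply 0)]
    trivial
  let S : Fam X := ⟨fun z => if e z = 0 then (⊤ : Opens BB)
      else ⟨(Cset p (e z))ᶜ, (isClosed_Cset hp _).isOpen_compl⟩, Or.inr hcov⟩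
  have hmem : ∀ z q, q ∈ S.val z ↔ (e z = 0 ∨ q ∉ Cset p (e z)) := by
    intro z q
    change q ∈ (if e z = 0 then (⊤ : Opens BB)
      else ⟨(Cset p (e z))ᶜ, (isClosed_Cset hp _).isOpen_compl⟩) ↔ _
    by_cases h : e z = 0
    · simp only [if_pos h, h, true_or, iff_true]
      trivial
    · simp only [if_neg h, h, false_or]
      rfl
  have hS : Cov S.val := hcov
  have hzC : ∀ n, zeroB ∈ Cset p n := fun n => Set.mem_insert _ _
  refine ⟨pt x0 zeroB, S, coat_pt _ _, by rw [bt_iff, not_not]; exact hS, ?_, ?_⟩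
  · rw [btInf_iff hS]
    intro z g hg
    have h0 : sh g zeroB = zeroB := rfl
    rw [h0] at hg ⊢
    rw [hmem] at hg
    rcases hg with hg | hg
    · exact ⟨hx0 z hg, rfl⟩
    · exact absurd (hzC _) hg
  · intro c c' hc hc' hSc hSc' hne hLe
    obtain ⟨x, q, rfl⟩ := coat_iff.1 hc.2.1
    obtain ⟨y, q', rfl⟩ := coat_iff.1 hc'.2.1
    have hoz : Orb zeroB = {zeroB} := by
      ext r
      exact ⟨fun h => orb_zero h, fun h => by rw [h]; exact mem_orb_self _⟩
    have hz1 : IsClosed (Orb zeroB) := by rw [hoz]; exact isClosed_singleton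
    have hz2 : IsClosed (Orb zeroB \ {zeroB}) := by rw [hoz]; simp
    obtain rfl := orb_zero (sim_orb hz1 hz2 hc)
    obtain rfl := orb_zero (sim_orb hz1 hz2 hc')
    have hxy : x ≠ y := fun h => hne (by rw [h])
    obtain ⟨T, T', ⟨hST, T'', hST'', hinf, hsup⟩, hTc, ⟨hST', -⟩, hT'c', hcl1, hcl2⟩ := hLe
    rw [le_pt] at hTc hT'c' hSc hSc'
    have hex : e x ≠ 0 := by
      intro h
      exact hSc ((hmem _ _).2 (Or.inl h))
    -- the intersection is pointwise
    have hinf' : T.val ⊓ T''.val = S.val := by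
      by_cases hcc : Cov (T.val ⊓ T''.val)
      · rw [← Fam.inf_val_of_cov hcc, hinf]
      · exfalso
        have h1 := Fam.inf_val_of_not_cov hcc
        rw [hinf] at h1
        rw [h1] at hS
        obtain ⟨_, _, h3⟩ := hS zeroB
        exact h3
    have hz'' : zeroB ∈ T''.val x := by
      rw [tp_iff, Fam.sup_val] at hsup
      have : zeroB ∈ (T.val ⊔ T''.val) x := by rw [hsup]; trivial
      rcases this with h | h
      · exact absurd h hTc
      · exact h
    have htend := hp.tends.comp (pair_tendsto (e x))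
    have hev1 : ∀ᶠ k in atTop, p (Nat.pair (e x) k) ∈ T''.val x :=
      htend.eventually ((T''.val x).isOpen.mem_nhds hz'')
    have hkey : ∀ k, p (Nat.pair (e x) k) ∈ T''.val x → p (Nat.pair (e x) k) ∉ T'.val x := by
      intro k hk
      have hnS : p (Nat.pair (e x) k) ∉ S.val x := by
        rw [hmem]
        rintro (h | h)
        · exact hex h
        · exact h (Set.mem_insert_of_mem _ ⟨k, rfl⟩)
      have hnT : p (Nat.pair (e x) k) ∉ T.val x := by
        intro h
        apply hnS
        rw [← hinf']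
        exact ⟨h, hk⟩
      obtain ⟨e1', hsim, hle⟩ := hcl2 (pt x (p (Nat.pair (e x) k))) (coat_pt _ _) (le_pt.2 hnT)
      obtain ⟨z, r, rfl⟩ := coat_iff.1 hsim.2.1
      have hfin := hp.fin (Nat.pair (e x) k)
      have horb := sim_orb hfin.isClosed (hfin.subset Set.diff_subset).isClosed hsim
      rw [le_pt] at hle
      have hrS : r ∉ S.val z := fun h => hle (hST' z h)
      rw [hmem] at hrS
      push Not at hrS
      obtain ⟨hez, hrC⟩ := hrS
      rcases hrC with rfl | ⟨k', rfl⟩
      · exact absurd horb (hp.ne _)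
      · have hpair := hp.dist _ _ horb
        have h1 := Nat.pair_eq_pair.1 hpair
        have hzx : z = x := e.injective h1.1
        rw [hzx, h1.2] at hle
        exact hle
    by_cases hz' : zeroB ∈ T'.val x
    · have hev2 : ∀ᶠ k in atTop, p (Nat.pair (e x) k) ∈ T'.val x :=
        htend.eventually ((T'.val x).isOpen.mem_nhds hz')
      obtain ⟨k, hk1, hk2⟩ := (hev1.and hev2).exists
      exact hkey k hk1 hk2
    · have := hcl1 (pt x zeroB) hc (le_pt.2 hz')
      exact hxy (pt_inj this).1

end Pinus
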