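import Pool.Agent.Helper672.Pinus.Defs
import Pool.Agent.Helper672.Pinus.Model

/-!
# The signature and the identities
-/

open FirstOrder

universe u

namespace Pinus

/-- The operation symbols: one binary one, four unary ones. -/
inductive Symb : ℕ → Type
  | f : Symb 2
  | s : Symb 1
  | s' : Symb 1
  | t : Symb 1
  | t' : Symb 1

/-- The signature. -/
abbrev pinSig : FirstOrder.Language.{0, 0} := ⟨Symb, fun _ => Empty⟩

instance : pinSig.IsAlgebraic := fun _ => inferInstanceAs (IsEmpty Empty)

namespace Tm

variable {α : Type u}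

/-- application of `f` -/
def F (a b : pinSig.Term α) : pinSig.Term α :=
  FirstOrder.Language.Term.func (L := pinSig) Symb.f ![a, b]
/-- application of `s` -/
def S (a : pinSig.Term α) : pinSig.Term α := FirstOrder.Language.Term.func (L := pinSig) Symb.s ![a]
/-- application of `s'` -/
def S' (a : pinSig.Term α) : pinSig.Term α := FirstOrder.Language.Term.func (L := pinSig) Symb.s' ![a]
/-- application of `t` -/
def T (a : pinSig.Term α) : pinSig.Term α := FirstOrder.Language.Term.func (L := pinSig) Symb.t ![a]
/-- application of `t'` -/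
def T' (a : pinSig.Term α) : pinSig.Term α := FirstOrder.Language.Term.func (L := pinSig) Symb.t' ![a]

/-- the translate of `f` by `s` -/
def Fs (a b : pinSig.Term α) : pinSig.Term α := S (F (S' a) (S' b))

/-- the variable `x_n` -/
def X (n : ℕ) : pinSig.Term ℕ := FirstOrder.Language.Term.var n

end Tm

open Tm in
/-- The ten identities. -/
def pinIds : Set (pinSig.Term ℕ × pinSig.Term ℕ) :=
  {(S (S' (X 0)), X 0),
   (S' (S (X 0)), X 0),
   (T (T' (X 0)), X 0),
   (T' (T (X 0)), X 0),
   (S (T (X 0)), T (S (X 0))),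
   (F (X 0) (X 0), X 0),
   (F (F (X 0) (X 1)) (X 2), F (X 0) (X 2)),
   (F (X 0) (F (X 1) (X 2)), F (X 0) (X 2)),
   (F (Fs (X 0) (X 1)) (Fs (X 2) (X 3)), Fs (F (X 0) (X 2)) (F (X 1) (X 3))),
   (T (F (T' (X 0)) (T' (X 1))), F (Fs (X 1) (X 0)) (Fs (X 0) (X 1)))}

/-- The variety. -/
abbrev pinVar : FBVariety where
  sig := pinSig
  algebraic := inferInstance
  finite_sig := by
    refine Finite.of_surjective (α := Fin 5) (fun i => match i with
      | 0 => ⟨2, Symb.f⟩
      | 1 => ⟨1, Symb.s⟩
      | 2 => ⟨1, Symb.s'⟩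
      | 3 => ⟨1, Symb.t⟩
      | 4 => ⟨1, Symb.t'⟩) ?_
    rintro ⟨n, a⟩
    cases a
    exacts [⟨0, rfl⟩, ⟨1, rfl⟩, ⟨2, rfl⟩, ⟨3, rfl⟩, ⟨4, rfl⟩]
  identities := pinIds
  finite_identities := by
    unfold pinIds
    exact Set.toFinite _

section
variable {A : Type u} [pinSig.Structure A]

/-- the operation `f` -/
def opF (a b : A) : A := FirstOrder.Language.Structure.funMap (L := pinSig) Symb.f ![a, b]
/-- the operation `s` -/
def opS (a : A) : A := FirstOrder.Language.Structure.funMap (L := pinSig) Symb.s ![a]
/-- the operation `s'` -/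
def opS' (a : A) : A := FirstOrder.Language.Structure.funMap (L := pinSig) Symb.s' ![a]
/-- the operation `t` -/
def opT (a : A) : A := FirstOrder.Language.Structure.funMap (L := pinSig) Symb.t ![a]
/-- the operation `t'` -/
def opT' (a : A) : A := FirstOrder.Language.Structure.funMap (L := pinSig) Symb.t' ![a]

theorem realize_F {α : Type*} (v : α → A) (a b : pinSig.Term α) :
    (Tm.F a b).realize v = opF (a.realize v) (b.realize v) := by
  unfold Tm.F opF
  rw [FirstOrder.Language.Term.realize_func]
  congr 1
  funext i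
  fin_cases i <;> rfl

theorem realize_S {α : Type*} (v : α → A) (a : pinSig.Term α) :
    (Tm.S a).realize v = opS (a.realize v) := by
  unfold Tm.S opS
  rw [FirstOrder.Language.Term.realize_func]
  congr 1
  funext i
  fin_cases i <;> rfl

theorem realize_S' {α : Type*} (v : α → A) (a : pinSig.Term α) :
    (Tm.S' a).realize v = opS' (a.realize v) := by
  unfold Tm.S' opS'
  rw [FirstOrder.Language.Term.realize_func]
  congr 1
  funext i
  fin_cases i <;> rfl

theorem realize_T {α : Type*} (v : α → A) (a : pinSig.Term α) :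
    (Tm.T a).realize v = opT (a.realize v) := by
  unfold Tm.T opT
  rw [FirstOrder.Language.Term.realize_func]
  congr 1
  funext i
  fin_cases i <;> rfl

theorem realize_T' {α : Type*} (v : α → A) (a : pinSig.Term α) :
    (Tm.T' a).realize v = opT' (a.realize v) := by
  unfold Tm.T' opT'
  rw [FirstOrder.Language.Term.realize_func]
  congr 1
  funext i
  fin_cases i <;> rfl

theorem realize_X (v : ℕ → A) (n : ℕ) : (Tm.X n).realize v = v n := rfl

/-- An assignment with four prescribed values. -/
def asg (x y z w : A) : ℕ → A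
  | 0 => x
  | 1 => y
  | 2 => z
  | _ => w

theorem isAlg_of_inVariety (h : InVariety pinVar A) :
    IsAlg (A := A) opF opS opS' opT opT' := by
  have key : ∀ e ∈ pinIds, ∀ x y z w : A,
      e.1.realize (asg x y z w) = e.2.realize (asg x y z w) := fun e he x y z w =>
    h e he _
  have h1 := key (_, _) (by unfold pinIds; exact Or.inl rfl)
  have h2 := key (_, _) (by unfold pinIds; exact Or.inr (Or.inl rfl))
  have h3 := key (_, _) (by unfold pinIds; exact Or.inr (Or.inr (Or.inl rfl)))
  have h4 := key (_, _) (by unfold pinIds; exact Or.inr (Or.inr (Or.inr (Or.inl rfl))))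
  have h5 := key (_, _) (by unfold pinIds; exact Or.inr (Or.inr (Or.inr (Or.inr (Or.inl rfl)))))
  have h6 := key (_, _) (by
    unfold pinIds; exact Or.inr (Or.inr (Or.inr (Or.inr (Or.inr (Or.inl rfl))))))
  have h7 := key (_, _) (by
    unfold pinIds; exact Or.inr (Or.inr (Or.inr (Or.inr (Or.inr (Or.inr (Or.inl rfl)))))))
  have h8 := key (_, _) (by
    unfold pinIds
    exact Or.inr (Or.inr (Or.inr (Or.inr (Or.inr (Or.inr (Or.inr (Or.inl rfl))))))))
  have h9 := key (_, _) (by
    unfold pinIds
    exact Or.inr (Or.inr (Or.inr (Or.inr (Or.inr (Or.inr (Or.inr (Or.inr (Or.inl rfl)))))))))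
  have h10 := key (_, _) (by
    unfold pinIds
    exact Or.inr (Or.inr (Or.inr (Or.inr (Or.inr (Or.inr (Or.inr (Or.inr (Or.inr rfl)))))))))
  simp only [Tm.Fs, realize_F, realize_S, realize_S', realize_T, realize_T', realize_X, asg] at h1 h2 h3 h4 h5 h6 h7 h8 h9 h10
  exact
    { ss' := fun x => h1 x x x x
      s's := fun x => h2 x x x x
      tt' := fun x => h3 x x x x
      t't := fun x => h4 x x x x
      st := fun x => h5 x x x x
      band := ⟨fun x => h6 x x x x, fun x y z => h7 x y z z, fun x y z => h8 x y z z⟩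
      comm := fun x y z w => h9 x y z w
      led := fun x y => h10 x y y y }

theorem inVariety_of_isAlg (h : IsAlg (A := A) opF opS opS' opT opT') :
    InVariety pinVar A := by
  intro e he v
  change e ∈ pinIds at he
  unfold pinIds at he
  simp only [Set.mem_insert_iff, Set.mem_singleton_iff] at he
  rcases he with rfl | rfl | rfl | rfl | rfl | rfl | rfl | rfl | rfl | rfl <;>
    simp only [Tm.Fs, realize_F, realize_S, realize_S', realize_T, realize_T', realize_X]
  · exact h.ss' _
  · exact h.s's _
  · exact h.tt' _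
  · exact h.t't _
  · exact h.st _
  · exact h.band.idem _
  · exact h.band.l _ _ _
  · exact h.band.r _ _ _
  · exact h.comm _ _ _ _
  · exact h.led _ _

end

/-- The concrete algebra as a structure. -/
noncomputable instance lcStructure (X : Type u) : pinSig.Structure (LC X) where
  funMap := fun {_} c => match c with
    | Symb.f => fun x => lite 0 (x 0) (x 1)
    | Symb.s => fun x => lact (1, 0) (x 0)
    | Symb.s' => fun x => lact (-(1, 0)) (x 0)
    | Symb.t => fun x => lact (0, 1) (x 0)
    | Symb.t' => fun x => lact (-(0, 1)) (x 0)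
  RelMap := fun r _ => r.elim

theorem lc_inVariety (X : Type u) : InVariety pinVar (LC X) :=
  inVariety_of_isAlg (lc_isAlg X)

end Pinus
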