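import Pool.Agent.Helper672.Pinus.Free

/-!
# The subalgebras of the concrete algebra
-/

open FirstOrder TopologicalSpace

universe u

namespace Pinus

variable {X : Type u}

theorem glue (S : Set (LC X)) (hne : S.Nonempty)
    (hS : ∀ g, ∀ z ∈ S, ∀ w ∈ S, lite g z w ∈ S) (P : BB → X × (ℤ × ℤ) → Prop)
    (h : ∀ p : BB, ∃ w ∈ S, ∃ O : Set BB, IsOpen O ∧ p ∈ O ∧ ∀ q ∈ O, P q (w q)) :
    ∃ w ∈ S, ∀ q, P q (w q) := by
  classical
  let Good : Finset (ℤ × ℤ) → (ℤ × ℤ → Bool) → Prop := fun F p =>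
    ∃ w ∈ S, ∀ q : BB, (∀ g ∈ F, p g = q.1 g) → P q (w q)
  have := tree_induction Good ?_ ?_ ?_ ?_ (fun _ => true)
  · obtain ⟨w, hw, hq⟩ := this
    exact ⟨w, hw, fun q => hq q (by simp)⟩
  · rintro F p q hpq ⟨w, hw, hq⟩
    exact ⟨w, hw, fun r hr => hq r (fun g hg => (hpq g hg).trans (hr g hg))⟩
  · rintro F F' p hF ⟨w, hw, hq⟩
    exact ⟨w, hw, fun r hr => hq r (fun g hg => hr g (hF hg))⟩
  · rintro F g p ⟨w1, hw1, hq1⟩ ⟨w0, hw0, hq0⟩
    refine ⟨lite g w1 w0, hS g w1 hw1 w0 hw0, fun q hq => ?_⟩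
    rw [lite_apply]
    cases e : q.1 g
    · refine hq0 q ?_
      intro k hk
      by_cases hkg : k = g
      · rw [hkg, Function.update_self, e]
      · rw [Function.update_of_ne hkg]
        exact hq k ((Finset.mem_insert.1 hk).resolve_left hkg)
    · refine hq1 q ?_
      intro k hk
      by_cases hkg : k = g
      · rw [hkg, Function.update_self, e]
      · rw [Function.update_of_ne hkg]
        exact hq k ((Finset.mem_insert.1 hk).resolve_left hkg)
  · intro p
    by_cases hp : Led p
    · obtain ⟨w, hw, O, hO, hpO, hq⟩ := h ⟨p, hp⟩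
      obtain ⟨O', hO', rfl⟩ := isOpen_induced_iff.1 hO
      obtain ⟨I, u, hu, hI⟩ := isOpen_pi_iff.1 hO' p hpO
      refine ⟨I, w, hw, fun q hqI => hq q (hI ?_)⟩
      intro g hg
      rw [← hqI g hg]
      exact (hu g hg).2
    · obtain ⟨w, hw⟩ := hne
      unfold Led at hp
      push Not at hp
      obtain ⟨g, hg⟩ := hp
      refine ⟨{g, g + (0, 1), g + (1, 0)}, w, hw, fun q hq => ?_⟩
      exfalso
      apply hg
      rw [hq g (by simp), hq (g + (0, 1)) (by simp), hq (g + (1, 0)) (by simp)]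
      exact q.2 g

/-- Closure properties of the underlying set of a subalgebra. -/
structure ClosedSet (S : Set (LC X)) : Prop where
  ite : ∀ g, ∀ z ∈ S, ∀ w ∈ S, lite g z w ∈ S
  act : ∀ k, ∀ z ∈ S, lact k z ∈ S

theorem closedSet_of_substructure (S : pinSig.Substructure (LC X)) :
    ClosedSet (S : Set (LC X)) := by
  have hf : ∀ z ∈ S, ∀ w ∈ S, lite 0 z w ∈ S := by
    intro z hz w hw
    exact S.fun_mem (Symb.f : pinSig.Functions 2) ![z, w] (by
      intro i; fin_cases i; exacts [hz, hw])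
  have hs : ∀ z ∈ S, lact (1, 0) z ∈ S := by
    intro z hz
    exact S.fun_mem (Symb.s : pinSig.Functions 1) ![z] (by intro i; fin_cases i; exact hz)
  have hs' : ∀ z ∈ S, lact (-(1, 0)) z ∈ S := by
    intro z hz
    exact S.fun_mem (Symb.s' : pinSig.Functions 1) ![z] (by intro i; fin_cases i; exact hz)
  have ht : ∀ z ∈ S, lact (0, 1) z ∈ S := by
    intro z hz
    exact S.fun_mem (Symb.t : pinSig.Functions 1) ![z] (by intro i; fin_cases i; exact hz)
  have ht' : ∀ z ∈ S, lact (-(0, 1)) z ∈ S := by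
    intro z hz
    exact S.fun_mem (Symb.t' : pinSig.Functions 1) ![z] (by intro i; fin_cases i; exact hz)
  let K : AddSubgroup (ℤ × ℤ) :=
    { carrier := {k | (∀ z ∈ S, lact k z ∈ S) ∧ (∀ z ∈ S, lact (-k) z ∈ S)}
      zero_mem' := ⟨fun z hz => by rwa [lact_zero], fun z hz => by rwa [neg_zero, lact_zero]⟩
      add_mem' := by
        rintro a b ⟨ha, ha'⟩ ⟨hb, hb'⟩
        refine ⟨fun z hz => ?_, fun z hz => ?_⟩
        · rw [← lact_lact]; exact ha _ (hb _ hz)
        · rw [neg_add, ← lact_lact]; exact ha' _ (hb' _ hz)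
      neg_mem' := by
        rintro a ⟨ha, ha'⟩
        exact ⟨ha', by rwa [neg_neg]⟩ }
  have k1 : ((1, 0) : ℤ × ℤ) ∈ K := ⟨hs, hs'⟩
  have k2 : ((0, 1) : ℤ × ℤ) ∈ K := ⟨ht, ht'⟩
  have kall : ∀ k : ℤ × ℤ, k ∈ K := by
    rintro ⟨a, b⟩
    have : ((a, b) : ℤ × ℤ) = a • (1, 0) + b • (0, 1) := by simp
    rw [this]
    exact K.add_mem (K.zsmul_mem k1 a) (K.zsmul_mem k2 b)
  refine ⟨fun g z hz w hw => ?_, fun k => (kall k).1⟩
  have e : lite g z w = lact g (lite 0 (lact (-g) z) (lact (-g) w)) := by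
    rw [lact_lite, lact_lact, lact_lact, add_neg_cancel, lact_zero, lact_zero, add_zero]
  rw [e]
  exact (kall g).1 _ (hf _ ((kall g).2 _ hz) _ ((kall g).2 _ hw))

/-- The subalgebra with a given underlying set. -/
def subOfClosed (S : Set (LC X)) (hS : ClosedSet S) : pinSig.Substructure (LC X) where
  carrier := S
  fun_mem := by
    intro n c x hx
    cases c
    · exact hS.ite 0 _ (hx 0) _ (hx 1)
    · exact hS.act _ _ (hx 0)
    · exact hS.act _ _ (hx 0)
    · exact hS.act _ _ (hx 0)
    · exact hS.act _ _ (hx 0)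

/-- The family of open sets attached to a set of elements. -/
def US (S : Set (LC X)) (x : X) : Opens BB :=
  ⟨{q | ∃ z ∈ S, z q = (x, 0)}, by
    have : {q | ∃ z ∈ S, z q = (x, 0)} = ⋃ z ∈ S, {q : BB | z q = (x, 0)} := by
      ext q
      simp
    rw [this]
    refine isOpen_biUnion fun z _ => ?_
    exact z.isLocallyConstant.isOpen_fiber _⟩

/-- The set of elements attached to a family of open sets. -/
def SU (U : X → Opens BB) : Set (LC X) := {z | ∀ p, sh (-(z p).2) p ∈ U (z p).1}

/-- Covering families. -/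
def Cov (U : X → Opens BB) : Prop := ∀ p, ∃ x g, sh g p ∈ U x

theorem mem_US {S : Set (LC X)} {x : X} {q : BB} : q ∈ US S x ↔ ∃ z ∈ S, z q = (x, 0) := Iff.rfl

theorem mem_SU_of_mem {S : Set (LC X)} (hS : ClosedSet S) {z : LC X} (hz : z ∈ S) :
    z ∈ SU (US S) := by
  intro p
  refine ⟨lact (-(z p).2) z, hS.act _ _ hz, ?_⟩
  rw [lact_apply, sh_neg_cancel, add_neg_cancel]

theorem SU_US {S : Set (LC X)} (hS : ClosedSet S) (hne : S.Nonempty) : SU (US S) = S := by
  apply Set.Subset.antisymm
  · intro z hz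
    have := glue S hne hS.ite (fun q y => y = z q) ?_
    · obtain ⟨w, hw, hq⟩ := this
      have : w = z := LocallyConstant.ext hq
      rwa [← this]
    · intro p
      obtain ⟨w, hw, hwp⟩ := hz p
      refine ⟨lact (z p).2 w, hS.act _ _ hw, {q | lact (z p).2 w q = z q}, ?_, ?_, ?_⟩
      · have h1 : IsLocallyConstant (fun q => (lact (z p).2 w q, z q)) :=
          (lact (z p).2 w).isLocallyConstant.comp₂ z.isLocallyConstant (fun a b => (a, b))
        exact h1 {y | y.1 = y.2}
      · change lact (z p).2 w p = z p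
        rw [lact_apply, hwp]
        simp
      · exact fun q hq => hq
  · intro z hz
    exact mem_SU_of_mem hS hz

theorem Cov_US {S : Set (LC X)} (hS : ClosedSet S) (hne : S.Nonempty) : Cov (US S) := by
  obtain ⟨z, hz⟩ := hne
  intro p
  exact ⟨(z p).1, -(z p).2, mem_SU_of_mem hS hz p⟩

theorem US_SU {U : X → Opens BB} (hU : Cov U) : US (SU U) = U := by
  funext x
  apply Opens.ext
  apply Set.Subset.antisymm
  · rintro q ⟨z, hz, hq⟩
    have := hz q
    rw [hq] at this
    simpa [sh_zero] using this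
  · intro q hq
    have hne : (Set.univ : Set (LC X)).Nonempty := ⟨gen x, trivial⟩
    obtain ⟨z, -, hz⟩ := glue Set.univ hne (fun _ _ _ _ _ => trivial)
      (fun p y => sh (-y.2) p ∈ U y.1 ∧ (p = q → y = (x, 0))) (by
        intro p
        by_cases hpq : p = q
        · subst hpq
          refine ⟨gen x, trivial, U x, (U x).isOpen, hq, fun p' hp' => ⟨?_, fun _ => rfl⟩⟩
          change sh (-0) p' ∈ U x
          rw [neg_zero, sh_zero]
          exact hp'
        · obtain ⟨x', g, hg⟩ := hU p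
          refine ⟨LocallyConstant.const _ (x', -g), trivial,
            (sh g) ⁻¹' (U x') ∩ {q}ᶜ, ?_, ⟨hg, hpq⟩, ?_⟩
          · exact ((U x').isOpen.preimage (continuous_sh g)).inter isOpen_compl_singleton
          · rintro p' ⟨h1, h2⟩
            refine ⟨?_, fun h3 => absurd h3 h2⟩
            change sh (- -g) p' ∈ U x'
            rw [neg_neg]
            exact h1)
    exact ⟨z, fun p => (hz p).1, (hz q).2 rfl⟩

theorem closedSet_SU (U : X → Opens BB) : ClosedSet (SU U) := by
  refine ⟨fun g z hz w hw p => ?_, fun k z hz p => ?_⟩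
  · rw [lite_apply]
    split_ifs
    exacts [hz p, hw p]
  · rw [lact_apply]
    have := hz (sh (-k) p)
    rw [← sh_add] at this
    convert this using 2
    simp only []
    abel

theorem SU_bot : SU (⊥ : X → Opens BB) = ∅ := by
  apply Set.eq_empty_of_forall_notMem
  intro z hz
  exact hz zeroB

theorem US_empty : US (∅ : Set (LC X)) = ⊥ := by
  funext x
  apply Opens.ext
  apply Set.eq_empty_of_forall_notMem
  rintro q ⟨z, hz, -⟩
  exact hz

/-- The lattice of families. -/
@[ext]
structure Fam (X : Type u) : Type u where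
  val : X → Opens BB
  prop : val = ⊥ ∨ Cov val

instance : PartialOrder (Fam X) := PartialOrder.lift Fam.val (fun _ _ h => Fam.ext h)

theorem Fam.le_iff {U V : Fam X} : U ≤ V ↔ U.val ≤ V.val := Iff.rfl

theorem Cov.mono {U V : X → Opens BB} (h : U ≤ V) (hU : Cov U) : Cov V := by
  intro p
  obtain ⟨x, g, hg⟩ := hU p
  exact ⟨x, g, h x hg⟩

/-- The join of two families. -/
def Fam.supF (U V : Fam X) : Fam X := ⟨U.val ⊔ V.val, by
  rcases U.prop with h | h
  · rcases V.prop with h' | h'
    · left; rw [h, h']; simp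
    · right; exact h'.mono le_sup_right
  · right; exact h.mono le_sup_left⟩

open Classical in
/-- The meet of two families. -/
noncomputable def Fam.infF (U V : Fam X) : Fam X :=
  ⟨if Cov (U.val ⊓ V.val) then U.val ⊓ V.val else ⊥, by
    split_ifs with h
    exacts [Or.inr h, Or.inl rfl]⟩

theorem Fam.infF_of_cov {U V : Fam X} (h : Cov (U.val ⊓ V.val)) :
    (Fam.infF U V).val = U.val ⊓ V.val := by
  unfold Fam.infF
  simp only
  rw [if_pos h]

theorem Fam.infF_of_not_cov {U V : Fam X} (h : ¬ Cov (U.val ⊓ V.val)) :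
    (Fam.infF U V).val = ⊥ := by
  unfold Fam.infF
  simp only
  rw [if_neg h]

noncomputable instance : Lattice (Fam X) where
  sup := Fam.supF
  le_sup_left U V := Fam.le_iff.2 (le_sup_left : U.val ≤ U.val ⊔ V.val)
  le_sup_right U V := Fam.le_iff.2 (le_sup_right : V.val ≤ U.val ⊔ V.val)
  sup_le U V W h h' := Fam.le_iff.2 (sup_le h h' : U.val ⊔ V.val ≤ W.val)
  inf := Fam.infF
  inf_le_left U V := by
    by_cases h : Cov (U.val ⊓ V.val)
    · exact Fam.le_iff.2 ((Fam.infF_of_cov h).trans_le inf_le_left)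
    · exact Fam.le_iff.2 ((Fam.infF_of_not_cov h).trans_le bot_le)
  inf_le_right U V := by
    by_cases h : Cov (U.val ⊓ V.val)
    · exact Fam.le_iff.2 ((Fam.infF_of_cov h).trans_le inf_le_right)
    · exact Fam.le_iff.2 ((Fam.infF_of_not_cov h).trans_le bot_le)
  le_inf U V W h h' := by
    by_cases hc : Cov (V.val ⊓ W.val)
    · exact Fam.le_iff.2 ((le_inf h h' : U.val ≤ V.val ⊓ W.val).trans_eq (Fam.infF_of_cov hc).symm)
    · rcases U.prop with h0 | h0
      · exact Fam.le_iff.2 (h0.trans_le bot_le)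
      · exact absurd (h0.mono (le_inf h h')) hc

theorem Fam.sup_val (U V : Fam X) : (U ⊔ V).val = U.val ⊔ V.val := rfl

theorem Fam.inf_val_of_cov {U V : Fam X} (h : Cov (U.val ⊓ V.val)) :
    (U ⊓ V).val = U.val ⊓ V.val := Fam.infF_of_cov h

theorem Fam.inf_val_of_not_cov {U V : Fam X} (h : ¬ Cov (U.val ⊓ V.val)) :
    (U ⊓ V).val = ⊥ := Fam.infF_of_not_cov h

/-- The lattice of subalgebras of the concrete algebra. -/
noncomputable def subIso (X : Type u) : pinSig.Substructure (LC X) ≃o Fam X where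
  toFun S := ⟨US (S : Set (LC X)), by
    rcases Set.eq_empty_or_nonempty (S : Set (LC X)) with h | h
    · left; rw [h, US_empty]
    · right; exact Cov_US (closedSet_of_substructure S) h⟩
  invFun U := subOfClosed (SU U.val) (closedSet_SU U.val)
  left_inv S := by
    apply SetLike.coe_injective
    change SU (US (S : Set (LC X))) = S
    rcases Set.eq_empty_or_nonempty (S : Set (LC X)) with h | h
    · rw [h, US_empty, SU_bot]
    · exact SU_US (closedSet_of_substructure S) h
  right_inv U := by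
    apply Fam.ext
    change US (SU U.val) = U.val
    rcases U.prop with h | h
    · rw [h, SU_bot, US_empty]
    · exact US_SU h
  map_rel_iff' := by
    intro S T
    change US (S : Set (LC X)) ≤ US (T : Set (LC X)) ↔ S ≤ T
    constructor
    · intro h
      rw [← SetLike.coe_subset_coe]
      intro z hz
      have hne : (S : Set (LC X)).Nonempty := ⟨z, hz⟩
      have hneT : (T : Set (LC X)).Nonempty := by
        obtain ⟨x, g, hg⟩ := Cov_US (closedSet_of_substructure S) hne zeroB
        obtain ⟨w, hw, -⟩ := h x hg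
        exact ⟨w, hw⟩
      rw [← SU_US (closedSet_of_substructure T) hneT]
      intro p
      exact h _ (mem_SU_of_mem (closedSet_of_substructure S) hz p)
    · rintro h x q ⟨z, hz, hq⟩
      exact ⟨z, h hz, hq⟩

end Pinus
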