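import Pool.Agent.Helper672.Pinus.Alg

/-!
# The congruence-like relations attached to configurations
-/

universe u

namespace Pinus

/-- A decision tree form of the compactness of `G → Bool`. -/
theorem tree_induction {G : Type} [DecidableEq G] (Good : Finset G → (G → Bool) → Prop)
    (hdep : ∀ F p q, (∀ g ∈ F, p g = q g) → Good F p → Good F q)
    (hmono : ∀ F F' p, F ⊆ F' → Good F p → Good F' p)
    (hstep : ∀ F g p, Good (insert g F) (Function.update p g true) →
      Good (insert g F) (Function.update p g false) → Good F p)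
    (hall : ∀ p, ∃ F, Good F p) (p : G → Bool) : Good ∅ p := by
  -- a finite set which is good for everything
  have h1 : ∃ F : Finset G, ∀ p, Good F p := by
    choose K hK using hall
    let U : (G → Bool) → Set (G → Bool) := fun p => {q | ∀ g ∈ K p, p g = q g}
    have hU : ∀ p, IsOpen (U p) := by
      intro p
      have : U p = ((K p : Set G)).pi (fun g => {p g}) := by
        ext q
        simp only [U, Set.mem_ofPred_eq, Set.mem_pi, Finset.mem_coe, Set.mem_singleton_iff]
        exact ⟨fun h g hg => (h g hg).symm, fun h g hg => (h g hg).symm⟩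
      rw [this]
      exact isOpen_set_pi (K p).finite_toSet (fun _ _ => isOpen_discrete _)
    obtain ⟨T, hT⟩ := (isCompact_univ (X := G → Bool)).elim_finite_subcover U hU
      (fun p _ => Set.mem_iUnion.2 ⟨p, fun _ _ => rfl⟩)
    refine ⟨T.biUnion K, fun q => ?_⟩
    obtain ⟨p, hp⟩ := Set.mem_iUnion.1 (hT (Set.mem_univ q))
    obtain ⟨hpT, hq⟩ := Set.mem_iUnion.1 hp
    exact hmono _ _ _ (Finset.subset_biUnion_of_mem K hpT) (hdep _ _ _ hq (hK p))
  obtain ⟨F, hF⟩ := h1
  have h2 : ∀ F : Finset G, (∀ p, Good F p) → ∀ p, Good ∅ p := by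
    intro F
    induction F using Finset.induction_on with
    | empty => exact fun h => h
    | insert g F _ ih => exact fun h => ih fun p => hstep _ _ _ (h _) (h _)
  exact h2 F hF p

/-- The configuration translated by `k`. -/
def shiftC (k : ℤ × ℤ) (p : ℤ × ℤ → Bool) : ℤ × ℤ → Bool := fun g => p (g - k)

/-- The configurations of Ledrappier's system. -/
def Led (p : ℤ × ℤ → Bool) : Prop :=
  ∀ g, p (g + (0, 1)) = xor (p g) (p (g + (1, 0)))

theorem Led.shift {p : ℤ × ℤ → Bool} (hp : Led p) (k : ℤ × ℤ) : Led (shiftC k p) := by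
  intro g
  have := hp (g - k)
  unfold shiftC
  rw [show g + (0, 1) - k = g - k + (0, 1) by abel, show g + (1, 0) - k = g - k + (1, 0) by abel]
  exact this

namespace IsAlg

variable {A : Type u} {f : A → A → A} {s s' t t' : A → A} (h : IsAlg f s s' t t')

include h

/-- The operation attached to a position and a bit. -/
def dd (c : (ℤ × ℤ) × Bool) : A → A → A :=
  fun x y => if c.2 then h.fg c.1 x y else h.fg c.1 y x

theorem dd_band (c : (ℤ × ℤ) × Bool) : RB (h.dd c) := by
  obtain ⟨g, b⟩ := c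
  have hb := h.fg_band g
  cases b
  · refine ⟨fun x => ?_, fun x y z => ?_, fun x y z => ?_⟩
    · simp [dd, hb.idem]
    · simp [dd, hb.r]
    · simp [dd, hb.l]
  · refine ⟨fun x => ?_, fun x y z => ?_, fun x y z => ?_⟩
    · simp [dd, hb.idem]
    · simp [dd, hb.l]
    · simp [dd, hb.r]

theorem dd_comm (c c' : (ℤ × ℤ) × Bool) : Cm (h.dd c) (h.dd c') := by
  obtain ⟨g, b⟩ := c
  obtain ⟨g', b'⟩ := c'
  have hc := h.fg_comm g g'
  intro x y z w
  cases b <;> cases b' <;> simp only [dd] <;> simp <;> exact hc _ _ _ _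

/-- The meets along a list. -/
def mm : List ((ℤ × ℤ) × Bool) → A → A → A
  | [] => fun x _ => x
  | c :: l => meetOp (h.dd c) (mm l)

theorem mm_cm (q : A → A → A) (hq : ∀ c, Cm q (h.dd c)) (l : List ((ℤ × ℤ) × Bool)) :
    Cm q (h.mm l) := by
  induction l with
  | nil => intro x y z w; rfl
  | cons c l ih => exact Cm.meet (hq c) ih

theorem mm_band (l : List ((ℤ × ℤ) × Bool)) : RB (h.mm l) := by
  induction l with
  | nil => exact ⟨fun _ => rfl, fun _ _ _ => rfl, fun _ _ _ => rfl⟩
  | cons c l ih => exact RB.meet (h.dd_band c) ih (h.mm_cm _ (fun c' => h.dd_comm _ _) l)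

theorem mm_comm (l l' : List ((ℤ × ℤ) × Bool)) : Cm (h.mm l) (h.mm l') :=
  h.mm_cm _ (fun c' => (h.mm_cm _ (fun c => h.dd_comm _ _) l).symm) l'

theorem dd_absorb (c : (ℤ × ℤ) × Bool) (l : List ((ℤ × ℤ) × Bool)) (hc : c ∈ l) (x y : A) :
    h.dd c (h.mm l x y) y = h.mm l x y := by
  induction l with
  | nil => simp at hc
  | cons c' l ih =>
    rcases List.mem_cons.1 hc with rfl | hc
    · change h.dd c (h.dd c (h.mm l x y) y) y = h.dd c (h.mm l x y) y
      rw [(h.dd_band c).l]
    · have := ih hc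
      change h.dd c (h.dd c' (h.mm l x y) y) y = h.dd c' (h.mm l x y) y
      have h2 := congrFun (congrFun (meet_comm (h.dd_band c') (h.dd_band c) (h.dd_comm c c'))
        (h.mm l x y)) y
      simp only [meetOp] at h2
      rw [h2, this]

theorem mm_absorb (l l' : List ((ℤ × ℤ) × Bool)) (hl : ∀ c ∈ l, c ∈ l') (x y : A) :
    h.mm l (h.mm l' x y) y = h.mm l' x y := by
  induction l with
  | nil => rfl
  | cons c l ih =>
    change h.dd c (h.mm l (h.mm l' x y) y) y = h.mm l' x y
    rw [ih (fun c hc => hl c (List.mem_cons_of_mem _ hc))]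
    exact h.dd_absorb c l' (hl c List.mem_cons_self) x y

theorem mm_mono (l l' : List ((ℤ × ℤ) × Bool)) (hl : ∀ c ∈ l, c ∈ l') (x y : A)
    (hxy : h.mm l x y = y) : h.mm l' x y = y := by
  have h1 := h.mm_absorb l l' hl x y
  have h2 := congrFun (congrFun (meet_comm (h.mm_band l') (h.mm_band l) (h.mm_comm l l')) x) y
  simp only [meetOp] at h2
  rw [← h1, h2, hxy, (h.mm_band l').idem]

theorem act_dd (k : ℤ × ℤ) (c : (ℤ × ℤ) × Bool) (x y : A) :
    h.act k (h.dd c x y) = h.dd (k + c.1, c.2) (h.act k x) (h.act k y) := by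
  obtain ⟨g, b⟩ := c
  cases b <;> simp [dd, h.act_fg]

theorem act_mm (k : ℤ × ℤ) (l : List ((ℤ × ℤ) × Bool)) (x y : A) :
    h.act k (h.mm l x y) = h.mm (l.map fun c => (k + c.1, c.2)) (h.act k x) (h.act k y) := by
  induction l with
  | nil => rfl
  | cons c l ih =>
    change h.act k (h.dd c (h.mm l x y) y) = _
    rw [act_dd, ih]
    rfl

/-- The relation attached to a configuration. -/
def th (p : ℤ × ℤ → Bool) (x y : A) : Prop :=
  ∃ l : List ((ℤ × ℤ) × Bool), (∀ c ∈ l, p c.1 = c.2) ∧ h.mm l x y = y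

theorem th_refl (p : ℤ × ℤ → Bool) (x : A) : h.th p x x := ⟨[], by simp, rfl⟩

theorem th_symm {p : ℤ × ℤ → Bool} {x y : A} (hxy : h.th p x y) : h.th p y x := by
  obtain ⟨l, hl, hm⟩ := hxy
  refine ⟨l, hl, ?_⟩
  conv_lhs => rw [← hm]
  rw [(h.mm_band l).l, (h.mm_band l).idem]

theorem th_trans {p : ℤ × ℤ → Bool} {x y z : A} (hxy : h.th p x y) (hyz : h.th p y z) :
    h.th p x z := by
  obtain ⟨l, hl, hm⟩ := hxy
  obtain ⟨l', hl', hm'⟩ := hyz
  refine ⟨l ++ l', ?_, ?_⟩
  · intro c hc
    rcases List.mem_append.1 hc with hc | hc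
    exacts [hl c hc, hl' c hc]
  · have h1 := h.mm_mono l (l ++ l') (fun c hc => List.mem_append_left _ hc) x y hm
    have h2 := h.mm_mono l' (l ++ l') (fun c hc => List.mem_append_right _ hc) y z hm'
    conv_rhs => rw [← h2, ← h1]
    rw [(h.mm_band _).l]

theorem th_cm {p : ℤ × ℤ → Bool} (q : A → A → A) (hq : ∀ c, Cm q (h.dd c)) {x y x' y' : A}
    (hx : h.th p x x') (hy : h.th p y y') : h.th p (q x y) (q x' y') := by
  obtain ⟨l, hl, hm⟩ := hx
  obtain ⟨l', hl', hm'⟩ := hy
  refine ⟨l ++ l', ?_, ?_⟩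
  · intro c hc
    rcases List.mem_append.1 hc with hc | hc
    exacts [hl c hc, hl' c hc]
  · have h1 := h.mm_mono l (l ++ l') (fun c hc => List.mem_append_left _ hc) _ _ hm
    have h2 := h.mm_mono l' (l ++ l') (fun c hc => List.mem_append_right _ hc) _ _ hm'
    rw [(h.mm_cm q hq (l ++ l')).symm, h1, h2]

theorem th_fg {p : ℤ × ℤ → Bool} (g : ℤ × ℤ) {x y x' y' : A}
    (hx : h.th p x x') (hy : h.th p y y') : h.th p (h.fg g x y) (h.fg g x' y') := by
  refine h.th_cm (h.fg g) (fun c => ?_) hx hy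
  exact h.dd_comm (g, true) c

theorem th_left {p : ℤ × ℤ → Bool} (g : ℤ × ℤ) (hg : p g = true) (x y : A) :
    h.th p (h.fg g x y) x := by
  refine ⟨[(g, true)], by simpa using hg, ?_⟩
  change h.fg g (h.fg g x y) x = x
  rw [(h.fg_band g).l, (h.fg_band g).idem]

theorem th_right {p : ℤ × ℤ → Bool} (g : ℤ × ℤ) (hg : p g = false) (x y : A) :
    h.th p (h.fg g x y) y := by
  refine ⟨[(g, false)], by simpa using hg, ?_⟩
  change h.fg g y (h.fg g x y) = y
  rw [(h.fg_band g).r, (h.fg_band g).idem]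

theorem th_act {p : ℤ × ℤ → Bool} (k : ℤ × ℤ) {x y : A} (hxy : h.th p x y) :
    h.th (shiftC k p) (h.act k x) (h.act k y) := by
  obtain ⟨l, hl, hm⟩ := hxy
  refine ⟨l.map fun c => (k + c.1, c.2), ?_, ?_⟩
  · intro c hc
    obtain ⟨c', hc', rfl⟩ := List.mem_map.1 hc
    simpa [shiftC] using hl c' hc'
  · rw [← h.act_mm, hm]

/-- Configurations outside Ledrappier's system give the total relation. -/
theorem th_of_not_led {p : ℤ × ℤ → Bool} (hp : ¬ Led p) (x y : A) : h.th p x y := by
  unfold Led at hp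
  push Not at hp
  obtain ⟨g, hg⟩ := hp
  have key : ∀ a b, h.fg (g + (0, 1)) a b =
      h.fg g (h.fg (g + (1, 0)) b a) (h.fg (g + (1, 0)) a b) := by
    intro a b
    rw [h.fg_led g]
    rfl
  have k1 := key x y
  cases e0 : p (g + (0, 1)) <;> cases e1 : p g <;> cases e2 : p (g + (1, 0)) <;>
    simp [e0, e1, e2] at hg
  · -- `p (g + t) = false`, `p g = false`, `p (g + s) = true`: left is `y`, right is `x`
    have a1 := h.th_right _ e0 x y
    have a2 := h.th_right _ e1 (h.fg (g + (1, 0)) y x) (h.fg (g + (1, 0)) x y)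
    have a3 := h.th_left _ e2 x y
    rw [← k1] at a2
    exact h.th_trans (h.th_symm a3) (h.th_trans (h.th_symm a2) a1)
  · have a1 := h.th_right _ e0 x y
    have a2 := h.th_left _ e1 (h.fg (g + (1, 0)) y x) (h.fg (g + (1, 0)) x y)
    have a3 := h.th_right _ e2 y x
    rw [← k1] at a2
    exact h.th_trans (h.th_symm a3) (h.th_trans (h.th_symm a2) a1)
  · have a1 := h.th_left _ e0 x y
    have a2 := h.th_right _ e1 (h.fg (g + (1, 0)) y x) (h.fg (g + (1, 0)) x y)
    have a3 := h.th_right _ e2 x y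
    rw [← k1] at a2
    exact h.th_trans (h.th_symm a1) (h.th_trans a2 a3)
  · have a1 := h.th_left _ e0 x y
    have a2 := h.th_left _ e1 (h.fg (g + (1, 0)) y x) (h.fg (g + (1, 0)) x y)
    have a3 := h.th_left _ e2 y x
    rw [← k1] at a2
    exact h.th_trans (h.th_symm a1) (h.th_trans a2 a3)

/-- The relations separate points. -/
theorem th_sep {x y : A} (hxy : ∀ p, Led p → h.th p x y) : x = y := by
  classical
  have hall : ∀ p, h.th p x y := by
    intro p
    by_cases hp : Led p
    exacts [hxy p hp, h.th_of_not_led hp x y]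
  let Good : Finset (ℤ × ℤ) → (ℤ × ℤ → Bool) → Prop := fun F p =>
    ∃ l : List ((ℤ × ℤ) × Bool), (∀ c ∈ l, c.1 ∈ F ∧ p c.1 = c.2) ∧ h.mm l x y = y
  have := tree_induction Good ?_ ?_ ?_ ?_ (fun _ => true)
  · obtain ⟨l, hl, hm⟩ := this
    cases l with
    | nil => exact hm
    | cons c l => exact absurd (hl c List.mem_cons_self).1 (by simp)
  · rintro F p q hpq ⟨l, hl, hm⟩
    exact ⟨l, fun c hc => ⟨(hl c hc).1, by rw [← hpq _ (hl c hc).1]; exact (hl c hc).2⟩, hm⟩
  · rintro F F' p hF ⟨l, hl, hm⟩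
    exact ⟨l, fun c hc => ⟨hF (hl c hc).1, (hl c hc).2⟩, hm⟩
  · rintro F g p ⟨l1, hl1, hm1⟩ ⟨l0, hl0, hm0⟩
    let l := (l1 ++ l0).filter (fun c => c.1 ≠ g)
    have hl : ∀ c ∈ l, c.1 ∈ F ∧ p c.1 = c.2 := by
      intro c hc
      have hc' := List.mem_filter.1 hc
      have hne : c.1 ≠ g := by simpa using hc'.2
      rcases List.mem_append.1 hc'.1 with hc1 | hc0
      · have := hl1 c hc1
        refine ⟨(Finset.mem_insert.1 this.1).resolve_left hne, ?_⟩
        rw [← this.2, Function.update_of_ne hne]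
      · have := hl0 c hc0
        refine ⟨(Finset.mem_insert.1 this.1).resolve_left hne, ?_⟩
        rw [← this.2, Function.update_of_ne hne]
    refine ⟨l, hl, ?_⟩
    have hA : h.mm ((g, true) :: l) x y = y := by
      refine h.mm_mono l1 _ ?_ x y hm1
      intro c hc
      by_cases hcg : c.1 = g
      · have := (hl1 c hc).2
        rw [hcg, Function.update_self] at this
        have : c = (g, true) := by ext <;> simp [hcg, this]
        rw [this]
        exact List.mem_cons_self
      · refine List.mem_cons_of_mem _ (List.mem_filter.2 ⟨List.mem_append_left _ hc, ?_⟩)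
        simpa using hcg
    have hB : h.mm ((g, false) :: l) x y = y := by
      refine h.mm_mono l0 _ ?_ x y hm0
      intro c hc
      by_cases hcg : c.1 = g
      · have := (hl0 c hc).2
        rw [hcg, Function.update_self] at this
        have : c = (g, false) := by ext <;> simp [hcg, this]
        rw [this]
        exact List.mem_cons_self
      · refine List.mem_cons_of_mem _ (List.mem_filter.2 ⟨List.mem_append_right _ hc, ?_⟩)
        simpa using hcg
    have hA' : h.fg g (h.mm l x y) y = y := hA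
    have hB' : h.fg g y (h.mm l x y) = y := hB
    have hb := h.fg_band g
    calc h.mm l x y = h.fg g (h.mm l x y) (h.mm l x y) := (hb.idem _).symm
      _ = h.fg g (h.fg g (h.mm l x y) y) (h.mm l x y) := (hb.l _ _ _).symm
      _ = h.fg g y (h.mm l x y) := by rw [hA']
      _ = y := hB'
  · intro p
    obtain ⟨l, hl, hm⟩ := hall p
    refine ⟨(l.map Prod.fst).toFinset, l, fun c hc => ⟨?_, hl c hc⟩, hm⟩
    simp only [List.mem_toFinset, List.mem_map]
    exact ⟨c, hc, rfl⟩

end IsAlg

end Pinus
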